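import Pool.Agent.Lib.MP_ae5b4e_an_UT.Scal
import Pool.Agent.Lib.MP_1f4a82_an.Limits
import Pool.Agent.Lib.MP_099f24_an.TP.Compact

/-!
# MP_ae5b4e_an, univalent toolkit (UT), part 8: Hurwitz, Montel, compactness of univalent families
-/

namespace Pool.Agent.Lib.MP_ae5b4e_an_UT

open Complex MeasureTheory Set Metric Filter Topology

variable {ι : Type*} {l : Filter ι} {F : ι → ℂ → ℂ} {g : ℂ → ℂ} {U : Set ℂ}

/-- local boundedness of a locally uniformly convergent family -/
theorem loc_bdd (hU : IsOpen U) (hlim : TendstoLocallyUniformlyOn F g l U)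
    (hg : ContinuousOn g U) {z : ℂ} (hz : z ∈ U) :
    ∃ r > 0, ball z r ⊆ U ∧ ∃ M : ℝ, ∀ᶠ n in l, ∀ w ∈ ball z r, ‖F n w‖ ≤ M := by
  obtain ⟨R, hR, hRU⟩ := Metric.isOpen_iff.mp hU z hz
  have hcl : closedBall z (R / 2) ⊆ U := (closedBall_subset_ball (by linarith)).trans hRU
  have hco : IsCompact (closedBall z (R / 2)) := isCompact_closedBall _ _
  obtain ⟨M, hM⟩ := hco.exists_bound_of_continuousOn (hg.mono hcl)
  have h1 : TendstoUniformlyOn F g l (closedBall z (R / 2)) :=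
    (tendstoLocallyUniformlyOn_iff_forall_isCompact hU).mp hlim _ hcl hco
  rw [Metric.tendstoUniformlyOn_iff] at h1
  refine ⟨R / 2, by positivity, ball_subset_closedBall.trans hcl, M + 1, ?_⟩
  filter_upwards [h1 1 one_pos] with n hn w hw
  have h2 := hn w (ball_subset_closedBall hw)
  have h3 := hM w (ball_subset_closedBall hw)
  rw [dist_comm, dist_eq_norm] at h2
  have h4 : ‖F n w‖ ≤ ‖F n w - g w‖ + ‖g w‖ := by
    have := norm_add_le (F n w - g w) (g w)
    rwa [sub_add_cancel] at this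
  linarith

/-- **Hurwitz**: a limit of zero free functions is zero free or identically zero. -/
theorem hurwitz_ne [l.NeBot] (hU : IsOpen U) (hc : IsPreconnected U)
    (hF : ∀ᶠ n in l, DifferentiableOn ℂ (F n) U) (hlim : TendstoLocallyUniformlyOn F g l U)
    (hne : ∀ᶠ n in l, ∀ z ∈ U, F n z ≠ 0) : (∀ z ∈ U, g z ≠ 0) ∨ ∀ z ∈ U, g z = 0 := by
  have hg : DifferentiableOn ℂ g U := hlim.differentiableOn hF hU
  by_contra hcon
  push Not at hcon
  obtain ⟨⟨z, hz, hgz⟩, w, hw, hgw⟩ := hcon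
  obtain ⟨r, hr, hrU, M, hM⟩ := loc_bdd hU hlim hg.continuousOn hz
  have h1 := Pool.Agent.Lib.MP_1f4a82_an.hurwitz_of_bounded (l := l) (F := F) (g := g)
    (Ω := ball z r) isOpen_ball (convex_ball z r).isPreconnected
    (by filter_upwards [hF] with n hn; exact hn.mono hrU) hM
    (fun x hx => hlim.tendsto_at (hrU hx))
    (by filter_upwards [hne] with n hn x hx; exact hn x (hrU hx)) (mem_ball_self hr) hgz
  have h2 : g =ᶠ[𝓝 z] 0 := by
    filter_upwards [ball_mem_nhds z hr] with x hx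
    exact h1 x hx
  have h3 : AnalyticOnNhd ℂ g U := hg.analyticOnNhd hU
  exact hgw (h3.eqOn_zero_of_preconnected_of_eventuallyEq_zero hc hz h2 hw)

/-- **Hurwitz**: a limit of injective functions is injective or constant. -/
theorem hurwitz_inj [l.NeBot] (hU : IsOpen U) (hc : IsPreconnected U)
    (hF : ∀ᶠ n in l, DifferentiableOn ℂ (F n) U) (hlim : TendstoLocallyUniformlyOn F g l U)
    (hinj : ∀ᶠ n in l, InjOn (F n) U) : InjOn g U ∨ ∀ z ∈ U, ∀ w ∈ U, g z = g w := by
  have hg : DifferentiableOn ℂ g U := hlim.differentiableOn hF hU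
  by_contra hcon
  push Not at hcon
  obtain ⟨hni, p, hp, q, hq, hpq⟩ := hcon
  apply hni
  intro a ha b hb hab
  by_contra hne
  obtain ⟨ρ, hρ, hρU⟩ := Metric.isOpen_iff.mp hU b hb
  have hdist : 0 < dist a b := dist_pos.mpr hne
  set t : ℝ := min ρ (dist a b) with ht
  have ht0 : 0 < t := lt_min hρ hdist
  have hsub : ball b t ⊆ U := (ball_subset_ball (min_le_left _ _)).trans hρU
  have haball : a ∉ ball b t := by
    intro h
    rw [mem_ball] at h
    exact absurd h (not_lt.mpr (min_le_right _ _))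
  have hlim' : TendstoLocallyUniformlyOn (fun n z => F n z - F n a) (fun z => g z - g a) l
      (ball b t) := by
    have h1 : Tendsto (fun n => F n a) l (𝓝 (g a)) := hlim.tendsto_at ha
    have h2 : TendstoLocallyUniformlyOn (fun n (_ : ℂ) => F n a) (fun _ => g a) l (ball b t) := by
      rw [Metric.tendstoLocallyUniformlyOn_iff]
      intro ε hε x _
      refine ⟨univ, univ_mem, ?_⟩
      rw [Metric.tendsto_nhds] at h1
      filter_upwards [h1 ε hε] with n hn y _
      rw [dist_comm]; exact hn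
    exact (hlim.mono hsub).sub h2
  rcases hurwitz_ne (l := l) isOpen_ball (convex_ball b t).isPreconnected
    (by filter_upwards [hF] with n hn; exact (hn.mono hsub).sub_const _) hlim'
    (by
      filter_upwards [hinj] with n hn z hz h
      have h5 := hn (hsub hz) ha (sub_eq_zero.mp h)
      rw [h5] at hz
      exact haball hz) with h | h
  · exact h b (mem_ball_self ht0) (by rw [hab, sub_self])
  · have h2 : (fun z => g z - g a) =ᶠ[𝓝 b] 0 := by
      filter_upwards [ball_mem_nhds b ht0] with x hx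
      exact h x hx
    have h3 : AnalyticOnNhd ℂ (fun z => g z - g a) U := (hg.sub_const _).analyticOnNhd hU
    have h4 := h3.eqOn_zero_of_preconnected_of_eventuallyEq_zero hc hb h2
    have h5 : g p - g a = 0 := h4 hp
    have h6 : g q - g a = 0 := h4 hq
    exact hpq (by rw [sub_eq_zero.mp h5, sub_eq_zero.mp h6])

/-- **Hurwitz**: persistence of isolated zeros. -/
theorem hurwitz_zero [l.NeBot] (hU : IsOpen U)
    (hF : ∀ᶠ n in l, DifferentiableOn ℂ (F n) U) (hlim : TendstoLocallyUniformlyOn F g l U)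
    {z : ℂ} (hz : z ∈ U) (hgz : g z = 0) (hnz : ¬ ∀ᶠ w in 𝓝 z, g w = 0) {ε : ℝ} (hε : 0 < ε) :
    ∀ᶠ n in l, ∃ w ∈ ball z ε, w ∈ U ∧ F n w = 0 := by
  obtain ⟨R, hR, hRU⟩ := Metric.isOpen_iff.mp hU z hz
  set t : ℝ := min ε R with ht
  have ht0 : 0 < t := lt_min hε hR
  have hsub : ball z t ⊆ U := (ball_subset_ball (min_le_right _ _)).trans hRU
  by_contra hcon
  rw [Filter.not_eventually] at hcon
  -- restrict to the bad set
  set l' : Filter ι := l ⊓ 𝓟 {n | ¬ ∃ w ∈ ball z ε, w ∈ U ∧ F n w = 0} with hl'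
  have hNe : l'.NeBot := frequently_mem_iff_neBot.mp hcon
  have hle : l' ≤ l := inf_le_left
  have hbad : ∀ᶠ n in l', ¬ ∃ w ∈ ball z ε, w ∈ U ∧ F n w = 0 :=
    (eventually_mem_set.mpr (mem_inf_of_right (mem_principal_self _)))
  have hlim' : TendstoLocallyUniformlyOn F g l' (ball z t) := by
    intro u hu x hx
    obtain ⟨s, hs, h⟩ := (hlim.mono hsub) u hu x hx
    exact ⟨s, hs, h.filter_mono hle⟩
  rcases hurwitz_ne (l := l') isOpen_ball (convex_ball z t).isPreconnected
    ((hF.filter_mono hle).mono fun n hn => hn.mono hsub) hlim'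
    (by
      filter_upwards [hbad] with n hn w hw h
      exact hn ⟨w, ball_subset_ball (min_le_left _ _) hw, hsub hw, h⟩) with h | h
  · exact h z (mem_ball_self ht0) hgz
  · apply hnz
    filter_upwards [ball_mem_nhds z ht0] with w hw
    exact h w hw

/-- **Montel's theorem**. -/
theorem montel {f : ℕ → ℂ → ℂ} (hU : IsOpen U)
    (h : ∀ x ∈ U, ∃ r > 0, ∃ M : ℝ, ∀ᶠ j in atTop,
      DifferentiableOn ℂ (f j) (ball x r) ∧ ∀ y ∈ ball x r, ‖f j y‖ ≤ M) :
    ∃ (φ : ℕ → ℕ) (G : ℂ → ℂ), StrictMono φ ∧ DifferentiableOn ℂ G U ∧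
      TendstoLocallyUniformlyOn (fun j => f (φ j)) G atTop U :=
  Pool.Agent.MP099f24.tp_montel hU h

/-- Compactness of normalised univalent functions on discs whose radii may vary. -/
theorem univ_compact {f : ℕ → ℂ → ℂ} {c : ℂ} {R : ℕ → ℝ} {R0 : ℝ}
    (hR : ∀ r < R0, ∀ᶠ n in atTop, r < R n) (hR0 : 0 < R0)
    (hf : ∀ n, DifferentiableOn ℂ (f n) (ball c (R n))) (hi : ∀ n, InjOn (f n) (ball c (R n)))
    (h0 : ∀ n, f n c = 0) (h1 : ∀ n, deriv (f n) c = 1) :
    ∃ (φ : ℕ → ℕ) (G : ℂ → ℂ), StrictMono φ ∧ DifferentiableOn ℂ G (ball c R0) ∧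
      InjOn G (ball c R0) ∧ G c = 0 ∧ deriv G c = 1 ∧
      TendstoLocallyUniformlyOn (fun j => f (φ j)) G atTop (ball c R0) := by
  have hb : ∀ x ∈ ball c R0, ∃ r > 0, ∃ M : ℝ, ∀ᶠ j in atTop,
      DifferentiableOn ℂ (f j) (ball x r) ∧ ∀ y ∈ ball x r, ‖f j y‖ ≤ M := by
    intro x hx
    rw [mem_ball] at hx
    -- `ball x δ ⊆ ball c s`, `s < S < R0`
    set δ : ℝ := (R0 - dist x c) / 3 with hδ
    have hδ0 : 0 < δ := by rw [hδ]; linarith
    set s : ℝ := dist x c + δ with hs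
    set S : ℝ := dist x c + 2 * δ with hSdef
    have hs0 : 0 < s := by rw [hs]; have := dist_nonneg (x := x) (y := c); linarith
    have hsS : s < S := by rw [hs, hSdef]; linarith
    have hS0 : 0 < S := by linarith
    have hSR : S < R0 := by rw [hSdef, hδ]; linarith
    refine ⟨δ, hδ0, S / (1 - s / S) ^ 2, ?_⟩
    filter_upwards [hR S hSR] with n hn
    have hsubS : ball c S ⊆ ball c (R n) := ball_subset_ball hn.le
    have hsub1 : ball x δ ⊆ ball c s := by
      intro y hy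
      rw [mem_ball] at hy ⊢
      have := dist_triangle y x c
      rw [hs]; linarith
    refine ⟨(hf n).mono (hsub1.trans ((ball_subset_ball hsS.le).trans hsubS)), ?_⟩
    intro y hy
    have hys := hsub1 hy
    have hyS : y ∈ ball c S := ball_subset_ball hsS.le hys
    have h2 := ball_growth_up hS0 ((hf n).mono hsubS) ((hi n).mono hsubS) hyS
    rw [h0, sub_zero, h1, norm_one, one_mul] at h2
    have hyn : ‖y - c‖ < s := mem_ball_iff_norm.mp hys
    have h3 : ‖y - c‖ / S ≤ s / S := div_le_div_of_nonneg_right hyn.le hS0.le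
    have h4 : 0 < 1 - s / S := by
      rw [sub_pos, div_lt_one hS0]; exact hsS
    refine le_trans h2 ?_
    gcongr
    linarith
  obtain ⟨φ, G, hφ, hG, hlim⟩ := montel isOpen_ball hb
  have hcc : c ∈ ball c R0 := mem_ball_self hR0
  have hG0 : G c = 0 := by
    have h2 : Tendsto (fun n => f (φ n) c) atTop (𝓝 (G c)) := hlim.tendsto_at hcc
    simp only [h0] at h2
    exact tendsto_nhds_unique h2 tendsto_const_nhds
  -- injectivity on every smaller disc
  have hin : ∀ r, 0 < r → r < R0 → InjOn G (ball c r) ∨ ∀ z ∈ ball c r, ∀ w ∈ ball c r, G z = G w := by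
    intro r hr hrR
    have hsub : ball c r ⊆ ball c R0 := ball_subset_ball hrR.le
    have hev : ∀ᶠ n in atTop, r < R (φ n) := hφ.tendsto_atTop.eventually (hR r hrR)
    refine hurwitz_inj (l := atTop) (F := fun j => f (φ j)) isOpen_ball
      (convex_ball c r).isPreconnected ?_ (hlim.mono hsub) ?_
    · filter_upwards [hev] with n hn
      exact (hf (φ n)).mono (ball_subset_ball hn.le)
    · filter_upwards [hev] with n hn
      exact (hi (φ n)).mono (ball_subset_ball hn.le)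
  have hG1 : deriv G c = 1 := by
    have hsub : ball c (R0 / 2) ⊆ ball c R0 := ball_subset_ball (by linarith)
    have hev : ∀ᶠ n in atTop, R0 / 2 < R (φ n) :=
      hφ.tendsto_atTop.eventually (hR (R0 / 2) (by linarith))
    have h2 := (hlim.mono hsub).deriv (by
      filter_upwards [hev] with n hn
      exact (hf (φ n)).mono (ball_subset_ball hn.le)) isOpen_ball
    have h3 : Tendsto (fun n => deriv (f (φ n)) c) atTop (𝓝 (deriv G c)) :=
      h2.tendsto_at (mem_ball_self (by positivity))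
    simp only [h1] at h3
    exact tendsto_nhds_unique h3 tendsto_const_nhds
  refine ⟨φ, G, hφ, hG, ?_, hG0, hG1, hlim⟩
  intro x hx y hy hxy
  rw [mem_ball] at hx hy
  obtain ⟨r, hr1, hr2⟩ := exists_between (max_lt hx hy)
  have hr0 : 0 < r := lt_of_le_of_lt (le_trans dist_nonneg (le_max_left _ _)) hr1
  rcases hin r hr0 hr2 with h | h
  · exact h (mem_ball.mpr (lt_of_le_of_lt (le_max_left _ _) hr1))
      (mem_ball.mpr (lt_of_le_of_lt (le_max_right _ _) hr1)) hxy
  · exfalso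
    have h3 : G =ᶠ[𝓝 c] fun _ => G c := by
      filter_upwards [ball_mem_nhds c hr0] with z hz
      exact h z hz c (mem_ball_self hr0)
    rw [h3.deriv_eq, deriv_const] at hG1
    exact zero_ne_one hG1

/-- Compactness of the class `S`. -/
theorem sch_compact {f : ℕ → ℂ → ℂ} (hf : ∀ n, Sch (f n)) :
    ∃ (φ : ℕ → ℕ) (G : ℂ → ℂ), StrictMono φ ∧ Sch G ∧
      TendstoLocallyUniformlyOn (fun j => f (φ j)) G atTop (ball 0 1) := by
  obtain ⟨φ, G, h1, h2, h3, h4, h5, h6⟩ := univ_compact (c := 0) (R := fun _ => 1) (R0 := 1)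
    (fun r hr => Eventually.of_forall fun _ => hr) one_pos (fun n => (hf n).diff)
    (fun n => (hf n).inj) (fun n => (hf n).zero) (fun n => (hf n).one)
  exact ⟨φ, G, h1, ⟨h2, h3, h4, h5⟩, h6⟩

/-- Compactness of the class `Σ₀`. -/
theorem sg_compact {e : ℕ → ℂ → ℂ} (he : ∀ n, Sg (e n)) :
    ∃ (φ : ℕ → ℕ) (G : ℂ → ℂ), StrictMono φ ∧ Sg G ∧
      TendstoLocallyUniformlyOn (fun j => e (φ j)) G atTop (ball 0 1) := by
  have hb : ∀ x ∈ ball (0 : ℂ) 1, ∃ r > 0, ∃ M : ℝ, ∀ᶠ j in atTop,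
      DifferentiableOn ℂ (e j) (ball x r) ∧ ∀ y ∈ ball x r, ‖e j y‖ ≤ M := by
    intro x hx
    have hx1 : ‖x‖ < 1 := mem_ball_zero_iff.mp hx
    set r : ℝ := (1 - ‖x‖) / 2 with hr
    have hr0 : 0 < r := by rw [hr]; linarith
    have hs1 : ‖x‖ + r < 1 := by rw [hr]; linarith
    have hs0 : 0 ≤ ‖x‖ + r := by positivity
    have hsub : ∀ y ∈ ball x r, ‖y‖ < ‖x‖ + r := by
      intro y hy
      have h1 := mem_ball_iff_norm.mp hy
      have h2 : ‖y‖ ≤ ‖y - x‖ + ‖x‖ := by
        have := norm_add_le (y - x) x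
        rwa [sub_add_cancel] at this
      linarith
    refine ⟨r, hr0, Real.sqrt (-Real.log (1 - (‖x‖ + r) ^ 2)), Eventually.of_forall fun j => ⟨?_, ?_⟩⟩
    · refine (he j).diff.mono ?_
      intro y hy
      rw [mem_ball_zero_iff]
      linarith [hsub y hy]
    · intro y hy
      have h1 := hsub y hy
      have h2 := (he j).bound (z := y) (mem_ball_zero_iff.mpr (by linarith))
      refine Real.le_sqrt_of_sq_le (le_trans h2 ?_)
      have h3 : 0 < 1 - (‖x‖ + r) ^ 2 := by nlinarith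
      have h4 : 1 - (‖x‖ + r) ^ 2 ≤ 1 - ‖y‖ ^ 2 := by nlinarith [norm_nonneg y]
      have := Real.log_le_log h3 h4
      linarith
  obtain ⟨φ, G, hφ, hG, hlim⟩ := montel isOpen_ball hb
  have hG0 : G 0 = 0 := by
    have h2 : Tendsto (fun n => e (φ n) 0) atTop (𝓝 (G 0)) :=
      hlim.tendsto_at (mem_ball_self one_pos)
    have h3 : (fun n => e (φ n) 0) = fun _ => (0 : ℂ) := by funext n; exact (he (φ n)).zero
    rw [h3] at h2
    exact tendsto_nhds_unique h2 tendsto_const_nhds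
  refine ⟨φ, G, hφ, ⟨hG, hG0, ?_⟩, hlim⟩
  -- the punctured disc is connected
  have hpc : IsPreconnected (ball (0 : ℂ) 1 \ {0}) := by
    have h1 : ball (0 : ℂ) 1 \ {0} = (fun p : ℝ × ℝ => circleMap 0 p.1 p.2) '' (Ioo 0 1 ×ˢ univ) := by
      ext u
      constructor
      · rintro ⟨hu, hu0⟩
        refine ⟨(‖u‖, Complex.arg u), ⟨⟨norm_pos_iff.mpr hu0, mem_ball_zero_iff.mp hu⟩, mem_univ _⟩, ?_⟩
        show circleMap 0 ‖u‖ (Complex.arg u) = u
        rw [circleMap_zero, Complex.norm_mul_exp_arg_mul_I]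
      · rintro ⟨p, hp, rfl⟩
        have h2 : 0 < p.1 := hp.1.1
        have h3 : p.1 < 1 := hp.1.2
        have h4 : ‖circleMap 0 p.1 p.2‖ = p.1 := by rw [norm_circleMap_zero, abs_of_pos h2]
        refine ⟨by show circleMap 0 p.1 p.2 ∈ ball (0 : ℂ) 1; rw [mem_ball_zero_iff, h4]; exact h3, ?_⟩
        show circleMap 0 p.1 p.2 ≠ 0
        rw [← norm_pos_iff, h4]; exact h2
    rw [h1]
    refine (isPreconnected_Ioo.prod isPreconnected_univ).image _ ?_
    have : Continuous (fun p : ℝ × ℝ => circleMap 0 p.1 p.2) := by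
      unfold circleMap; fun_prop
    exact this.continuousOn
  have hlim' : TendstoLocallyUniformlyOn (fun j z => z⁻¹ + e (φ j) z) (fun z => z⁻¹ + G z) atTop
      (ball (0 : ℂ) 1 \ {0}) := by
    rw [Metric.tendstoLocallyUniformlyOn_iff]
    intro ε hε x hx
    obtain ⟨s, hs, h⟩ := (Metric.tendstoLocallyUniformlyOn_iff.mp (hlim.mono sdiff_subset)) ε hε x hx
    refine ⟨s, hs, ?_⟩
    filter_upwards [h] with n hn y hy
    rw [dist_add_left]
    exact hn y hy
  have hdiff : ∀ j, DifferentiableOn ℂ (fun z => z⁻¹ + e (φ j) z) (ball (0 : ℂ) 1 \ {0}) := by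
    intro j
    refine (differentiableOn_inv.mono ?_).add ((he (φ j)).diff.mono sdiff_subset)
    intro z hz
    exact hz.2
  rcases hurwitz_inj (l := atTop) isOpen_pd hpc (Eventually.of_forall hdiff) hlim'
    (Eventually.of_forall fun j => (he (φ j)).inj) with h | h
  · exact h
  · exfalso
    -- `1/z + G z` is unbounded near zero
    have hx2 : (1 / 2 : ℂ) ∈ ball (0 : ℂ) 1 \ {0} := by
      refine ⟨?_, by norm_num⟩
      rw [mem_ball_zero_iff]
      norm_num
    have h3 : ∀ z ∈ ball (0 : ℂ) 1 \ {0}, 1 + z * G z = z * ((1 / 2 : ℂ)⁻¹ + G (1 / 2)) := by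
      intro z hz
      have hz0 : z ≠ 0 := hz.2
      have h4 := h z hz (1 / 2) hx2
      rw [← h4]
      field_simp
    have h5 : Tendsto (fun z : ℂ => 1 + z * G z) (𝓝[≠] 0) (𝓝 (1 + 0 * G 0)) := by
      have : ContinuousAt G 0 := hG.continuousOn.continuousAt (ball_mem_nhds _ one_pos)
      have h6 : ContinuousAt (fun z : ℂ => 1 + z * G z) 0 := by fun_prop
      exact h6.tendsto.mono_left nhdsWithin_le_nhds
    have h6 : Tendsto (fun z : ℂ => z * ((1 / 2 : ℂ)⁻¹ + G (1 / 2))) (𝓝[≠] 0)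
        (𝓝 (0 * ((1 / 2 : ℂ)⁻¹ + G (1 / 2)))) := by
      have h7 : Continuous (fun z : ℂ => z * ((1 / 2 : ℂ)⁻¹ + G (1 / 2))) := by fun_prop
      exact (h7.tendsto 0).mono_left nhdsWithin_le_nhds
    have h8 : (fun z : ℂ => 1 + z * G z) =ᶠ[𝓝[≠] 0]
        fun z => z * ((1 / 2 : ℂ)⁻¹ + G (1 / 2)) := by
      have h9 : ball (0 : ℂ) 1 \ {0} ∈ 𝓝[≠] (0 : ℂ) := by
        rw [sdiff_eq, inter_comm]
        exact inter_mem_nhdsWithin _ (ball_mem_nhds _ one_pos)
      filter_upwards [h9] with z hz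
      exact h3 z hz
    have h10 := tendsto_nhds_unique (h5.congr' h8) h6
    rw [zero_mul, zero_mul, add_zero] at h10
    exact one_ne_zero h10

end Pool.Agent.Lib.MP_ae5b4e_an_UT
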