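import Pool.Agent.Lib.MP_ae5b4e_an_UT.Bieb

/-!
# MP_ae5b4e_an, univalent toolkit (UT), part 4: the class `Σ₀`

`Sg e`: `e` is holomorphic in the unit disc, `e 0 = 0` and `1/z + e z` is injective on the punctured
disc.  With `ζ = 1/z`: `g ζ = ζ + e (1/ζ)` is univalent in `|ζ| > 1`.
-/

namespace Pool.Agent.Lib.MP_ae5b4e_an_UT

open Complex MeasureTheory Set Metric Filter Topology

/-- the class `Σ₀` in the variable `z = 1/ζ` -/
structure Sg (e : ℂ → ℂ) : Prop where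
  diff : DifferentiableOn ℂ e (ball 0 1)
  zero : e 0 = 0
  inj : InjOn (fun z => z⁻¹ + e z) (ball 0 1 \ {0})

/-- Every value omitted by `1/z + e z` lies in the disc `|w| ≤ 2`. -/
theorem Sg.omitted {e : ℂ → ℂ} (he : Sg e) {w : ℂ}
    (hw : ∀ z ∈ ball (0 : ℂ) 1 \ {0}, z⁻¹ + e z ≠ w) : ‖w‖ ≤ 2 := by
  have h01 : (0 : ℂ) ∈ ball (0 : ℂ) 1 := mem_ball_self one_pos
  have hne : ∀ z ∈ ball (0 : ℂ) 1, 1 + z * (e z - w) ≠ 0 := by
    intro z hz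
    rcases eq_or_ne z 0 with rfl | hz0
    · simp
    · have h1 := hw z ⟨hz, hz0⟩
      have h2 : 1 + z * (e z - w) = z * (z⁻¹ + e z - w) := by field_simp; ring
      rw [h2]
      exact mul_ne_zero hz0 (sub_ne_zero.mpr h1)
  set P : ℂ → ℂ := fun z => (1 + z * (e z - w))⁻¹ with hP
  have hed := he.diff
  have hPd : DifferentiableOn ℂ P (ball 0 1) := by
    refine DifferentiableOn.inv ?_ hne
    fun_prop
  have hPd0 : DifferentiableAt ℂ P 0 := hPd.differentiableAt (isOpen_ball.mem_nhds h01)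
  set F : ℂ → ℂ := fun z => z * P z with hF
  obtain ⟨hF0, hF1, hF2⟩ := co_two_of (F := F) (EventuallyEq.refl _ _) hPd0
  have hP0 : P 0 = 1 := by rw [hP]; simp
  have hFS : Sch F := by
    refine ⟨differentiableOn_id.mul hPd, ?_, hF0, by rw [hF1, hP0]⟩
    intro x hx y hy hxy
    have hxy' : x * (1 + x * (e x - w))⁻¹ = y * (1 + y * (e y - w))⁻¹ := hxy
    rcases eq_or_ne x 0 with rfl | hx0
    · rw [zero_mul] at hxy'
      rcases mul_eq_zero.mp hxy'.symm with h | h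
      · exact h.symm
      · exact absurd h (inv_ne_zero (hne y hy))
    rcases eq_or_ne y 0 with rfl | hy0
    · rw [zero_mul] at hxy'
      rcases mul_eq_zero.mp hxy' with h | h
      · exact h
      · exact absurd h (inv_ne_zero (hne x hx))
    refine he.inj ⟨hx, hx0⟩ ⟨hy, hy0⟩ ?_
    show x⁻¹ + e x = y⁻¹ + e y
    have h1 := hne x hx
    have h2 := hne y hy
    have h3 : x * (1 + y * (e y - w)) = y * (1 + x * (e x - w)) := by
      field_simp at hxy'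
      rw [hxy']
      ring
    field_simp
    linear_combination -h3
  have hP1 : deriv P 0 = w := by
    have a1 : HasDerivAt e (deriv e 0) 0 :=
      (hed.differentiableAt (isOpen_ball.mem_nhds h01)).hasDerivAt
    have a2 : HasDerivAt (fun z : ℂ => 1 + z * (e z - w)) (1 * (e 0 - w) + 0 * deriv e 0) 0 :=
      ((hasDerivAt_id (0 : ℂ)).mul (a1.sub_const w)).const_add 1
    have a3 : HasDerivAt P (-(1 * (e 0 - w) + 0 * deriv e 0) / (1 + 0 * (e 0 - w)) ^ 2) 0 :=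
      a2.inv (hne 0 h01)
    rw [a3.deriv, he.zero]
    simp
  have hb1 := hFS.bieberbach
  rwa [hF2, hP1] at hb1

/-- Every value outside `|w| ≤ 2` is attained exactly once. -/
theorem Sg.solve {e : ℂ → ℂ} (he : Sg e) {w : ℂ} (hw : 2 < ‖w‖) :
    ∃! z, z ∈ ball (0 : ℂ) 1 \ {0} ∧ z⁻¹ + e z = w := by
  by_contra hcon
  have h1 : ∀ z ∈ ball (0 : ℂ) 1 \ {0}, z⁻¹ + e z ≠ w := by
    intro z hz h
    refine hcon ⟨z, ⟨hz, h⟩, ?_⟩
    rintro y ⟨hy, hyw⟩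
    exact he.inj hy hz (by show y⁻¹ + e y = z⁻¹ + e z; rw [hyw, h])
  have := he.omitted h1
  linarith

/-- scaling -/
theorem Sg.scale {e : ℂ → ℂ} (he : Sg e) {r : ℝ} (hr : 0 < r) (hr1 : r ≤ 1) :
    Sg (fun z => (r : ℂ) * e (r * z)) := by
  have hr0 : (r : ℂ) ≠ 0 := by exact_mod_cast hr.ne'
  have hmap : ∀ w ∈ ball (0 : ℂ) 1, (r : ℂ) * w ∈ ball (0 : ℂ) 1 := by
    intro w hw
    rw [mem_ball_zero_iff] at hw ⊢
    rw [norm_mul, Complex.norm_real, Real.norm_of_nonneg hr.le]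
    nlinarith [norm_nonneg w]
  refine ⟨(he.diff.comp (by fun_prop) hmap).const_mul _, by simp [he.zero], ?_⟩
  intro x hx y hy hxy
  have h1 : x⁻¹ + (r : ℂ) * e (r * x) = y⁻¹ + (r : ℂ) * e (r * y) := hxy
  have hx0 : x ≠ 0 := hx.2
  have hy0 : y ≠ 0 := hy.2
  have h2 : ∀ u : ℂ, u ≠ 0 → u⁻¹ + (r : ℂ) * e (r * u) = r * ((r * u)⁻¹ + e (r * u)) := by
    intro u hu
    field_simp
  rw [h2 x hx0, h2 y hy0] at h1
  have h3 := mul_left_cancel₀ hr0 h1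
  have h4 := he.inj (x₁ := (r : ℂ) * x) (x₂ := (r : ℂ) * y) ⟨hmap x hx.1, mul_ne_zero hr0 hx0⟩
    ⟨hmap y hy.1, mul_ne_zero hr0 hy0⟩ h3
  exact mul_left_cancel₀ hr0 h4

/-- `|g ζ| ≤ 2 |ζ|`. -/
theorem Sg.growth {e : ℂ → ℂ} (he : Sg e) {z : ℂ} (hz : z ∈ ball (0 : ℂ) 1 \ {0}) :
    ‖z⁻¹ + e z‖ ≤ 2 / ‖z‖ := by
  have hz0 : z ≠ 0 := hz.2
  have hzp : 0 < ‖z‖ := norm_pos_iff.mpr hz0
  have hz1 : ‖z‖ < 1 := mem_ball_zero_iff.mp hz.1
  set r : ℝ := ‖z‖ with hr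
  have hr0 : (r : ℂ) ≠ 0 := by exact_mod_cast hzp.ne'
  have hS := he.scale hzp hz1.le
  have h1 := hS.omitted (w := (r : ℂ) * (z⁻¹ + e z)) (by
    intro x hx h
    have hx0 : x ≠ 0 := hx.2
    have hx1 : ‖x‖ < 1 := mem_ball_zero_iff.mp hx.1
    have h2 : x⁻¹ + (r : ℂ) * e (r * x) = r * ((r * x)⁻¹ + e (r * x)) := by field_simp
    have h3 : x⁻¹ + (r : ℂ) * e (r * x) = r * (z⁻¹ + e z) := h
    rw [h2] at h3
    have h4 := mul_left_cancel₀ hr0 h3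
    have hrx : ‖(r : ℂ) * x‖ = r * ‖x‖ := by
      rw [norm_mul, Complex.norm_real, Real.norm_of_nonneg hzp.le]
    have h5 := he.inj (x₁ := (r : ℂ) * x) (x₂ := z) ⟨by
      rw [mem_ball_zero_iff, hrx]
      nlinarith [norm_nonneg x], mul_ne_zero hr0 hx0⟩ hz h4
    have h6 : ‖(r : ℂ) * x‖ = ‖z‖ := by rw [h5]
    rw [hrx, ← hr] at h6
    nlinarith)
  rw [norm_mul, Complex.norm_real, Real.norm_of_nonneg hzp.le] at h1
  rw [le_div_iff₀ hzp]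
  linarith

/-- The Cauchy-Schwarz form of the area theorem. -/
theorem area_cs {e : ℂ → ℂ} (he : DifferentiableOn ℂ e (ball 0 1))
    (hinj : InjOn (fun z => z⁻¹ + e z) (ball 0 1 \ {0})) {a : ℕ → ℂ} {S : ℂ}
    (ha : Summable (fun k : ℕ => ‖a k‖ ^ 2 / (k + 1)))
    (hS : HasSum (fun k : ℕ => co e (k + 1) * a k) S) :
    ‖S‖ ^ 2 ≤ ∑' k : ℕ, ‖a k‖ ^ 2 / (k + 1) := by
  have hT : Tendsto (fun N => ∑ k ∈ Finset.range N, co e (k + 1) * a k) atTop (𝓝 S) :=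
    hS.tendsto_sum_nat
  have hT2 : Tendsto (fun N => ‖∑ k ∈ Finset.range N, co e (k + 1) * a k‖ ^ 2) atTop
      (𝓝 (‖S‖ ^ 2)) := (hT.norm).pow 2
  refine le_of_tendsto hT2 (Eventually.of_forall fun N => ?_)
  have h1 : ‖∑ k ∈ Finset.range N, co e (k + 1) * a k‖ ≤
      ∑ k ∈ Finset.range N, (Real.sqrt (k + 1) * ‖co e (k + 1)‖) * (‖a k‖ / Real.sqrt (k + 1)) := by
    refine le_trans (norm_sum_le _ _) (le_of_eq (Finset.sum_congr rfl fun k _ => ?_))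
    rw [norm_mul]
    have : Real.sqrt (k + 1) ≠ 0 := (Real.sqrt_pos.mpr (by positivity)).ne'
    field_simp
  have h2 : (∑ k ∈ Finset.range N, (Real.sqrt (k + 1) * ‖co e (k + 1)‖) *
      (‖a k‖ / Real.sqrt (k + 1))) ^ 2 ≤
      (∑ k ∈ Finset.range N, (Real.sqrt (k + 1) * ‖co e (k + 1)‖) ^ 2) *
        ∑ k ∈ Finset.range N, (‖a k‖ / Real.sqrt (k + 1)) ^ 2 :=
    Finset.sum_mul_sq_le_sq_mul_sq _ _ _
  have h3 : ∑ k ∈ Finset.range N, (Real.sqrt (k + 1) * ‖co e (k + 1)‖) ^ 2 ≤ 1 := by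
    refine le_trans (le_of_eq (Finset.sum_congr rfl fun k _ => ?_)) (area_fin he hinj N)
    rw [mul_pow, Real.sq_sqrt (by positivity)]
  have h4 : ∑ k ∈ Finset.range N, (‖a k‖ / Real.sqrt (k + 1)) ^ 2 ≤
      ∑' k : ℕ, ‖a k‖ ^ 2 / (k + 1) := by
    refine le_trans (le_of_eq (Finset.sum_congr rfl fun k _ => ?_))
      (ha.sum_le_tsum (Finset.range N) (fun k _ => by positivity))
    rw [div_pow, Real.sq_sqrt (by positivity)]
  have h5 : 0 ≤ ∑ k ∈ Finset.range N, (‖a k‖ / Real.sqrt (k + 1)) ^ 2 :=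
    Finset.sum_nonneg fun k _ => by positivity
  calc ‖∑ k ∈ Finset.range N, co e (k + 1) * a k‖ ^ 2
      ≤ (∑ k ∈ Finset.range N, (Real.sqrt (k + 1) * ‖co e (k + 1)‖) *
      (‖a k‖ / Real.sqrt (k + 1))) ^ 2 := by
        exact pow_le_pow_left₀ (norm_nonneg _) h1 2
    _ ≤ _ := h2
    _ ≤ 1 * ∑ k ∈ Finset.range N, (‖a k‖ / Real.sqrt (k + 1)) ^ 2 :=
        mul_le_mul_of_nonneg_right h3 h5
    _ ≤ _ := by rw [one_mul]; exact h4

theorem Sg.hasSum {e : ℂ → ℂ} (he : Sg e) {z : ℂ} (hz : z ∈ ball (0 : ℂ) 1) :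
    HasSum (fun k : ℕ => co e (k + 1) * z ^ (k + 1)) (e z) := by
  have h1 := co_hasSum he.diff hz
  rw [← hasSum_nat_add_iff' 1] at h1
  simpa [co_zero, he.zero] using h1

theorem summable_log {x : ℝ} (hx0 : 0 ≤ x) (hx : x < 1) :
    HasSum (fun k : ℕ => x ^ (k + 1) / (k + 1)) (-Real.log (1 - x)) :=
  Real.hasSum_pow_div_log_of_abs_lt_one (by rw [abs_of_nonneg hx0]; exact hx)

/-- `|E ζ| ^ 2 ≤ -log (1 - |ζ|⁻²)`. -/
theorem Sg.bound {e : ℂ → ℂ} (he : Sg e) {z : ℂ} (hz : z ∈ ball (0 : ℂ) 1) :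
    ‖e z‖ ^ 2 ≤ -Real.log (1 - ‖z‖ ^ 2) := by
  have hz1 : ‖z‖ < 1 := mem_ball_zero_iff.mp hz
  have h2 : ‖z‖ ^ 2 < 1 := pow_lt_one₀ (norm_nonneg z) hz1 (by norm_num)
  have h3 := summable_log (sq_nonneg ‖z‖) h2
  have h4 : ∀ k : ℕ, ‖z ^ (k + 1)‖ ^ 2 / (k + 1) = (‖z‖ ^ 2) ^ (k + 1) / (k + 1) := by
    intro k
    rw [norm_pow, ← pow_mul, ← pow_mul, mul_comm]
  have h5 : HasSum (fun k : ℕ => ‖z ^ (k + 1)‖ ^ 2 / (k + 1)) (-Real.log (1 - ‖z‖ ^ 2)) := by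
    simp only [h4]; exact h3
  have h6 := area_cs he.diff he.inj h5.summable (he.hasSum hz)
  rwa [h5.tsum_eq] at h6

/-- The two point estimate. -/
theorem Sg.two {e : ℂ → ℂ} (he : Sg e) {z w : ℂ} (hz : z ∈ ball (0 : ℂ) 1)
    (hw : w ∈ ball (0 : ℂ) 1) :
    Summable (fun k : ℕ => ‖z ^ (k + 1) + w ^ (k + 1)‖ ^ 2 / (k + 1)) ∧
    ‖e z + e w‖ ^ 2 ≤ ∑' k : ℕ, ‖z ^ (k + 1) + w ^ (k + 1)‖ ^ 2 / (k + 1) := by
  have hz1 : ‖z‖ < 1 := mem_ball_zero_iff.mp hz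
  have hw1 : ‖w‖ < 1 := mem_ball_zero_iff.mp hw
  have h2 : ‖z‖ ^ 2 < 1 := pow_lt_one₀ (norm_nonneg z) hz1 (by norm_num)
  have h2' : ‖w‖ ^ 2 < 1 := pow_lt_one₀ (norm_nonneg w) hw1 (by norm_num)
  have h3 := (summable_log (sq_nonneg ‖z‖) h2).summable
  have h3' := (summable_log (sq_nonneg ‖w‖) h2').summable
  have hs : Summable (fun k : ℕ => ‖z ^ (k + 1) + w ^ (k + 1)‖ ^ 2 / (k + 1)) := by
    refine Summable.of_nonneg_of_le (fun k => by positivity) (fun k => ?_)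
      ((h3.add h3').mul_left 2)
    have h4 : ‖z ^ (k + 1) + w ^ (k + 1)‖ ≤ ‖z‖ ^ (k + 1) + ‖w‖ ^ (k + 1) := by
      refine le_trans (norm_add_le _ _) ?_
      rw [norm_pow, norm_pow]
    have h5 : ‖z ^ (k + 1) + w ^ (k + 1)‖ ^ 2 ≤ 2 * ((‖z‖ ^ 2) ^ (k + 1) + (‖w‖ ^ 2) ^ (k + 1)) := by
      refine le_trans (pow_le_pow_left₀ (norm_nonneg _) h4 2) ?_
      rw [← pow_mul, ← pow_mul, mul_comm 2 (k + 1), pow_mul, pow_mul]
      nlinarith [sq_nonneg (‖z‖ ^ (k + 1) - ‖w‖ ^ (k + 1))]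
    have h6 : (0 : ℝ) < k + 1 := by positivity
    rw [div_le_iff₀ h6]
    refine le_trans h5 (le_of_eq ?_)
    field_simp
  refine ⟨hs, area_cs he.diff he.inj hs ?_⟩
  have h7 := (he.hasSum hz).add (he.hasSum hw)
  refine h7.congr_fun ?_ |> fun h => h
  intro k
  ring

/-- **Nehari-Kraus** at the centre of a disc of radius `a`, in terms of `1/z + h z`. -/
theorem nehari_kraus {h : ℂ → ℂ} {a : ℝ} (ha : 0 < a) (hd : DifferentiableOn ℂ h (ball 0 a))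
    (hinj : InjOn (fun z => z⁻¹ + h z) (ball 0 a \ {0})) : ‖deriv h 0‖ ≤ 1 / a ^ 2 := by
  have ha0 : (a : ℂ) ≠ 0 := by exact_mod_cast ha.ne'
  have hmap : ∀ w ∈ ball (0 : ℂ) 1, (a : ℂ) * w ∈ ball (0 : ℂ) a := by
    intro w hw
    rw [mem_ball_zero_iff] at hw ⊢
    rw [norm_mul, Complex.norm_real, Real.norm_of_nonneg ha.le]
    nlinarith [norm_nonneg w]
  have h1 := area_one (e := fun z => (a : ℂ) * h (a * z))
    ((hd.comp (by fun_prop) hmap).const_mul _) (by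
      intro x hx y hy hxy
      have h1 : x⁻¹ + (a : ℂ) * h (a * x) = y⁻¹ + (a : ℂ) * h (a * y) := hxy
      have hx0 : x ≠ 0 := hx.2
      have hy0 : y ≠ 0 := hy.2
      have h2 : ∀ u : ℂ, u ≠ 0 → u⁻¹ + (a : ℂ) * h (a * u) = a * ((a * u)⁻¹ + h (a * u)) := by
        intro u hu
        field_simp
      rw [h2 x hx0, h2 y hy0] at h1
      have h3 := mul_left_cancel₀ ha0 h1
      have h4 := hinj (x₁ := (a : ℂ) * x) (x₂ := (a : ℂ) * y) ⟨hmap x hx.1, mul_ne_zero ha0 hx0⟩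
        ⟨hmap y hy.1, mul_ne_zero ha0 hy0⟩ h3
      exact mul_left_cancel₀ ha0 h4)
  have h2 : HasDerivAt h (deriv h 0) ((a : ℂ) * 0) := by
    rw [mul_zero]
    exact (hd.differentiableAt (isOpen_ball.mem_nhds (mem_ball_self ha))).hasDerivAt
  have h3 : HasDerivAt (fun w : ℂ => (a : ℂ) * w) a 0 := by
    simpa using (hasDerivAt_id (0 : ℂ)).const_mul (a : ℂ)
  have h4 : HasDerivAt (fun z => (a : ℂ) * h (a * z)) (a * (deriv h 0 * a)) 0 :=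
    (h2.comp (0 : ℂ) h3).const_mul _
  rw [h4.deriv, norm_mul, norm_mul, Complex.norm_real, Real.norm_of_nonneg ha.le] at h1
  rw [le_div_iff₀ (by positivity)]
  nlinarith

end Pool.Agent.Lib.MP_ae5b4e_an_UT
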