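import Pool.Agent.Lib.MP_ae5b4e_an_UT.Growth

/-!
# MP_ae5b4e_an, univalent toolkit (UT), part 7: all statements in an arbitrary disc
-/

namespace Pool.Agent.Lib.MP_ae5b4e_an_UT

open Complex MeasureTheory Set Metric Filter Topology

section
variable {f : ℂ → ℂ} {c : ℂ} {R : ℝ}

theorem sc_mem (hR : 0 < R) {z : ℂ} (hz : z ∈ ball (0 : ℂ) 1) : c + R * z ∈ ball c R := by
  rw [mem_ball_iff_norm, add_sub_cancel_left, norm_mul, Complex.norm_real,
    Real.norm_of_nonneg hR.le]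
  have := mem_ball_zero_iff.mp hz
  nlinarith [norm_nonneg z]

theorem sc_mem' (hR : 0 < R) {z : ℂ} (hz : z ∈ ball c R) :
    (z - c) / R ∈ ball (0 : ℂ) 1 ∧ ‖(z - c) / R‖ = ‖z - c‖ / R ∧ c + R * ((z - c) / R) = z := by
  have h1 : ‖(z - c) / R‖ = ‖z - c‖ / R := by
    rw [norm_div, Complex.norm_real, Real.norm_of_nonneg hR.le]
  have hR0 : (R : ℂ) ≠ 0 := by exact_mod_cast hR.ne'
  refine ⟨?_, h1, ?_⟩
  · rw [mem_ball_zero_iff, h1, div_lt_one hR]
    exact mem_ball_iff_norm.mp hz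
  · field_simp
    ring

/-- the rescaled function -/
theorem sc_fun (hR : 0 < R) (hf : DifferentiableOn ℂ f (ball c R)) (hi : InjOn f (ball c R)) :
    DifferentiableOn ℂ (fun z => f (c + R * z)) (ball 0 1) ∧
    InjOn (fun z => f (c + R * z)) (ball 0 1) ∧
    (∀ z ∈ ball (0 : ℂ) 1, deriv (fun z => f (c + R * z)) z = R * deriv f (c + R * z)) := by
  have hR0 : (R : ℂ) ≠ 0 := by exact_mod_cast hR.ne'
  refine ⟨hf.comp (by fun_prop) (fun z hz => sc_mem hR hz), ?_, ?_⟩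
  · intro x hx y hy hxy
    have h1 := hi (sc_mem hR hx) (sc_mem hR hy) hxy
    have h2 : (R : ℂ) * x = R * y := add_left_cancel h1
    exact mul_left_cancel₀ hR0 h2
  · intro z hz
    have h1 : HasDerivAt f (deriv f (c + R * z)) (c + R * z) :=
      (hf.differentiableAt (isOpen_ball.mem_nhds (sc_mem hR hz))).hasDerivAt
    have h2 : HasDerivAt (fun z : ℂ => c + R * z) (R : ℂ) z := by
      simpa using ((hasDerivAt_id z).const_mul (R : ℂ)).const_add c
    have h3 := h1.comp z h2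
    rw [mul_comm]
    exact h3.deriv

theorem ball_deriv_up (hR : 0 < R) (hf : DifferentiableOn ℂ f (ball c R)) (hi : InjOn f (ball c R))
    {z : ℂ} (hz : z ∈ ball c R) :
    ‖deriv f z‖ ≤ ‖deriv f c‖ * ((1 + ‖z - c‖ / R) / (1 - ‖z - c‖ / R) ^ 3) := by
  obtain ⟨h1, h2, h3⟩ := sc_fun hR hf hi
  obtain ⟨m1, m2, m3⟩ := sc_mem' hR hz
  have h4 := deriv_up h1 h2 m1
  rw [h3 _ m1, h3 0 (mem_ball_self one_pos), m3, mul_zero, add_zero, m2, norm_mul, norm_mul,
    Complex.norm_real, Real.norm_of_nonneg hR.le, mul_assoc] at h4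
  exact le_of_mul_le_mul_left h4 hR

theorem ball_deriv_low (hR : 0 < R) (hf : DifferentiableOn ℂ f (ball c R)) (hi : InjOn f (ball c R))
    {z : ℂ} (hz : z ∈ ball c R) :
    ‖deriv f c‖ * ((1 - ‖z - c‖ / R) / (1 + ‖z - c‖ / R) ^ 3) ≤ ‖deriv f z‖ := by
  obtain ⟨h1, h2, h3⟩ := sc_fun hR hf hi
  obtain ⟨m1, m2, m3⟩ := sc_mem' hR hz
  have h4 := deriv_low h1 h2 m1
  rw [h3 _ m1, h3 0 (mem_ball_self one_pos), m3, mul_zero, add_zero, m2, norm_mul, norm_mul,
    Complex.norm_real, Real.norm_of_nonneg hR.le, mul_assoc] at h4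
  exact le_of_mul_le_mul_left h4 hR

theorem ball_growth_up (hR : 0 < R) (hf : DifferentiableOn ℂ f (ball c R))
    (hi : InjOn f (ball c R)) {z : ℂ} (hz : z ∈ ball c R) :
    ‖f z - f c‖ ≤ ‖deriv f c‖ * (‖z - c‖ / (1 - ‖z - c‖ / R) ^ 2) := by
  obtain ⟨h1, h2, h3⟩ := sc_fun hR hf hi
  obtain ⟨m1, m2, m3⟩ := sc_mem' hR hz
  have h4 := growth_up h1 h2 m1
  rw [h3 0 (mem_ball_self one_pos), m3, mul_zero, add_zero, m2, norm_mul,
    Complex.norm_real, Real.norm_of_nonneg hR.le] at h4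
  refine le_trans h4 (le_of_eq ?_)
  field_simp

/-- normalisation of the rescaled function -/
theorem sc_sch (hR : 0 < R) (hf : DifferentiableOn ℂ f (ball c R)) (hi : InjOn f (ball c R)) :
    Sch (fun z => (f (c + R * z) - f c) / (R * deriv f c)) := by
  obtain ⟨h1, h2, h3⟩ := sc_fun hR hf hi
  have hR0 : (R : ℂ) ≠ 0 := by exact_mod_cast hR.ne'
  have hfc : deriv f c ≠ 0 := deriv_ne isOpen_ball hf hi (mem_ball_self hR)
  have hc0 : (R : ℂ) * deriv f c ≠ 0 := mul_ne_zero hR0 hfc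
  refine ⟨(h1.sub_const _).div_const _, ?_, ?_, ?_⟩
  · intro x hx y hy hxy
    have h4 : (f (c + R * x) - f c) / (R * deriv f c) = (f (c + R * y) - f c) / (R * deriv f c) := hxy
    rw [div_left_inj' hc0] at h4
    exact h2 hx hy (sub_left_injective h4)
  · show (f (c + R * 0) - f c) / _ = 0
    rw [mul_zero, add_zero, sub_self, zero_div]
  · have h01 : (0 : ℂ) ∈ ball (0 : ℂ) 1 := mem_ball_self one_pos
    have h4 : HasDerivAt (fun z => f (c + R * z)) (R * deriv f c) 0 := by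
      have h5 := (h1.differentiableAt (isOpen_ball.mem_nhds h01)).hasDerivAt
      rw [h3 0 h01, mul_zero, add_zero] at h5
      exact h5
    have h5 := ((h4.sub_const (f c)).div_const (R * deriv f c))
    rw [h5.deriv]
    exact div_self hc0

/-- **Koebe's theorem**: the image of a disc contains a disc. -/
theorem ball_koebe (hR : 0 < R) (hf : DifferentiableOn ℂ f (ball c R)) (hi : InjOn f (ball c R)) :
    ball (f c) (R * ‖deriv f c‖ / 4) ⊆ f '' ball c R := by
  intro w hw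
  have hfc : deriv f c ≠ 0 := deriv_ne isOpen_ball hf hi (mem_ball_self hR)
  have hR0 : (R : ℂ) ≠ 0 := by exact_mod_cast hR.ne'
  have hc0 : (R : ℂ) * deriv f c ≠ 0 := mul_ne_zero hR0 hfc
  have hcn : ‖(R : ℂ) * deriv f c‖ = R * ‖deriv f c‖ := by
    rw [norm_mul, Complex.norm_real, Real.norm_of_nonneg hR.le]
  have hcp : 0 < R * ‖deriv f c‖ := mul_pos hR (norm_pos_iff.mpr hfc)
  have h1 : (w - f c) / (R * deriv f c) ∈ ball (0 : ℂ) (1 / 4) := by
    rw [mem_ball_zero_iff, norm_div, hcn, div_lt_iff₀ hcp]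
    have := mem_ball_iff_norm.mp hw
    linarith
  obtain ⟨z, hz, hzw⟩ := (sc_sch hR hf hi).koebe h1
  have h2 : (f (c + R * z) - f c) / (R * deriv f c) = (w - f c) / (R * deriv f c) := hzw
  rw [div_left_inj' hc0] at h2
  exact ⟨c + R * z, sc_mem hR hz, sub_left_injective h2⟩

theorem ball_growth_low (hR : 0 < R) (hf : DifferentiableOn ℂ f (ball c R))
    (hi : InjOn f (ball c R)) {z : ℂ} (hz : z ∈ ball c R) :
    ‖deriv f c‖ * ‖z - c‖ / 4 ≤ ‖f z - f c‖ := by
  have hfc : deriv f c ≠ 0 := deriv_ne isOpen_ball hf hi (mem_ball_self hR)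
  have hcn : ‖(R : ℂ) * deriv f c‖ = R * ‖deriv f c‖ := by
    rw [norm_mul, Complex.norm_real, Real.norm_of_nonneg hR.le]
  have hcp : 0 < R * ‖deriv f c‖ := mul_pos hR (norm_pos_iff.mpr hfc)
  obtain ⟨m1, m2, m3⟩ := sc_mem' hR hz
  have h1 := (sc_sch hR hf hi).growth_low m1
  rw [m2] at h1
  have h2 : (f (c + R * ((z - c) / R)) - f c) / (R * deriv f c) = (f z - f c) / (R * deriv f c) := by
    rw [m3]
  rw [h2, norm_div, hcn, le_div_iff₀ hcp] at h1
  refine le_trans (le_of_eq ?_) h1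
  field_simp

/-- The logarithm of the derivative. -/
theorem ball_log (hR : 0 < R) (hf : DifferentiableOn ℂ f (ball c R)) (hi : InjOn f (ball c R)) :
    ∃ g : ℂ → ℂ, DifferentiableOn ℂ g (ball c R) ∧ g c = 0 ∧
      (∀ z ∈ ball c R, deriv f z = deriv f c * Complex.exp (g z)) ∧
      (∀ z ∈ ball c R, HasDerivAt g (deriv (deriv f) z / deriv f z) z) ∧
      ∀ z ∈ ball c R, ‖g z‖ ≤ Real.log (1 + ‖z - c‖ / R) - 3 * Real.log (1 - ‖z - c‖ / R) := by
  obtain ⟨h1, h2, h3⟩ := sc_fun hR hf hi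
  have hR0 : (R : ℂ) ≠ 0 := by exact_mod_cast hR.ne'
  obtain ⟨G, hG, hG0, hGe, hGd, hGb⟩ := log_deriv_bound h1 h2
  have hge : ∀ z ∈ ball c R, deriv f z = deriv f c * Complex.exp (G ((z - c) / R)) := by
    intro z hz
    obtain ⟨m1, m2, m3⟩ := sc_mem' hR hz
    have h4 := hGe _ m1
    rw [h3 _ m1, h3 0 (mem_ball_self one_pos), m3, mul_zero, add_zero, mul_assoc] at h4
    exact mul_left_cancel₀ hR0 h4
  have hdd : DifferentiableOn ℂ (fun z => G ((z - c) / R)) (ball c R) := by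
    refine hG.comp (by fun_prop) ?_
    intro z hz
    exact (sc_mem' hR hz).1
  refine ⟨fun z => G ((z - c) / R), hdd, by simp [hG0], hge, ?_, ?_⟩
  · intro z hz
    have h5 : HasDerivAt (fun z => G ((z - c) / R)) (deriv (fun z => G ((z - c) / R)) z) z :=
      (hdd.differentiableAt (isOpen_ball.mem_nhds hz)).hasDerivAt
    have h6 : deriv f =ᶠ[𝓝 z] fun z => deriv f c * Complex.exp (G ((z - c) / R)) := by
      filter_upwards [isOpen_ball.mem_nhds hz] with w hw
      exact hge w hw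
    have h7 := h5.cexp.const_mul (deriv f c)
    have h8 : deriv (deriv f) z = deriv f z * deriv (fun z => G ((z - c) / R)) z := by
      rw [h6.deriv_eq, h7.deriv, hge z hz]
      ring
    have h9 : deriv f z ≠ 0 := deriv_ne isOpen_ball hf hi hz
    rw [h8, mul_div_cancel_left₀ _ h9]
    exact h5
  · intro z hz
    obtain ⟨m1, m2, m3⟩ := sc_mem' hR hz
    have h4 := hGb _ m1
    rwa [m2] at h4

/-- Size of the second derivative at the centre. -/
theorem ball_second (hR : 0 < R) (hf : DifferentiableOn ℂ f (ball c R)) (hi : InjOn f (ball c R)) :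
    ‖deriv (deriv f) c‖ ≤ 4 / R * ‖deriv f c‖ := by
  obtain ⟨g, hg, hg0, hge, hgd, hgb⟩ := ball_log hR hf hi
  obtain ⟨h1, h2, h3⟩ := sc_fun hR hf hi
  have h01 : (0 : ℂ) ∈ ball (0 : ℂ) 1 := mem_ball_self one_pos
  have hfc : deriv f c ≠ 0 := deriv_ne isOpen_ball hf hi (mem_ball_self hR)
  have hR0 : (R : ℂ) ≠ 0 := by exact_mod_cast hR.ne'
  have h4 := distortion' h1 h2 h01
  have h5 : deriv (deriv (fun z => f (c + R * z))) 0 = R * (R * deriv (deriv f) c) := by
    have h6 : deriv (fun z => f (c + R * z)) =ᶠ[𝓝 0] fun z => R * deriv f (c + R * z) := by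
      filter_upwards [isOpen_ball.mem_nhds h01] with z hz
      exact h3 z hz
    rw [h6.deriv_eq]
    have h7 : HasDerivAt (deriv f) (deriv (deriv f) c) (c + R * 0) := by
      rw [mul_zero, add_zero]
      exact ((hf.deriv isOpen_ball).differentiableAt
        (isOpen_ball.mem_nhds (mem_ball_self hR))).hasDerivAt
    have h8 : HasDerivAt (fun z : ℂ => c + R * z) (R : ℂ) 0 := by
      simpa using ((hasDerivAt_id (0 : ℂ)).const_mul (R : ℂ)).const_add c
    have h9 := (h7.comp (0 : ℂ) h8).const_mul (R : ℂ)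
    have h10 : HasDerivAt (fun z => (R : ℂ) * deriv f (c + R * z)) _ 0 := h9
    rw [h10.deriv]
    ring
  rw [h5, h3 0 h01, mul_zero, add_zero, mul_div_mul_left _ _ hR0, norm_zero, norm_div, norm_mul,
    Complex.norm_real, Real.norm_of_nonneg hR.le] at h4
  have h6 : 0 < ‖deriv f c‖ := norm_pos_iff.mpr hfc
  rw [div_le_iff₀ h6] at h4
  norm_num at h4
  rw [div_mul_eq_mul_div, le_div_iff₀ hR]
  linarith

end

end Pool.Agent.Lib.MP_ae5b4e_an_UT
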