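import Pool.Agent.Lib.MP_ae5b4e_an_UT.Area
import Pool.Agent.Lib.MP_1f4a82_an.Local

/-!
# MP_ae5b4e_an, univalent toolkit (UT), part 3: Bieberbach's inequality and Koebe's theorem
-/

namespace Pool.Agent.Lib.MP_ae5b4e_an_UT

open Complex MeasureTheory Set Metric Filter Topology

/-- A zero free holomorphic function on a disc has a holomorphic logarithm. -/
theorem exists_log_ball {f : ℂ → ℂ} {c : ℂ} {R : ℝ} (hR : 0 < R)
    (hf : DifferentiableOn ℂ f (ball c R)) (h0 : ∀ z ∈ ball c R, f z ≠ 0) :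
    ∃ g : ℂ → ℂ, DifferentiableOn ℂ g (ball c R) ∧ (∀ z ∈ ball c R, Complex.exp (g z) = f z) ∧
      (∀ z ∈ ball c R, HasDerivAt g (deriv f z / f z) z) ∧ g c = Complex.log (f c) := by
  have hd : DifferentiableOn ℂ (deriv f) (ball c R) := hf.deriv isOpen_ball
  have hq : DifferentiableOn ℂ (fun z => deriv f z / f z) (ball c R) := hd.div hf h0
  obtain ⟨g, hgc, hg⟩ := hq.isExactOn_ball.with_val_at c (Complex.log (f c))
  refine ⟨g, fun z hz => (hg z hz).differentiableAt.differentiableWithinAt, ?_, hg, hgc⟩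
  have hcc : c ∈ ball c R := mem_ball_self hR
  set P : ℂ → ℂ := fun z => f z * Complex.exp (-g z) with hP
  have hPd : ∀ z ∈ ball c R, HasDerivAt P 0 z := by
    intro z hz
    have h1 : HasDerivAt f (deriv f z) z :=
      (hf.differentiableAt (isOpen_ball.mem_nhds hz)).hasDerivAt
    have h2 := h1.mul ((hg z hz).neg.cexp)
    refine h2.congr_deriv ?_
    have := h0 z hz
    field_simp
    ring
  have hPdiff : DifferentiableOn ℂ P (ball c R) :=
    fun z hz => (hPd z hz).differentiableAt.differentiableWithinAt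
  have hconst : ∀ z ∈ ball c R, P z = P c := by
    intro z hz
    refine isOpen_ball.is_const_of_deriv_eq_zero (convex_ball c R).isPreconnected hPdiff ?_ hz hcc
    intro w hw
    exact (hPd w hw).deriv
  have hPc : P c = 1 := by
    rw [hP]
    show f c * Complex.exp (-g c) = 1
    rw [hgc, Complex.exp_neg, Complex.exp_log (h0 c hcc)]
    exact mul_inv_cancel₀ (h0 c hcc)
  intro z hz
  have h1 := hconst z hz
  rw [hPc] at h1
  have h2 : f z * Complex.exp (-g z) = 1 := h1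
  rw [Complex.exp_neg] at h2
  have h3 := Complex.exp_ne_zero (g z)
  field_simp at h2
  exact h2.symm

/-- A zero free holomorphic function on a disc has a holomorphic square root. -/
theorem exists_sqrt_ball {f : ℂ → ℂ} {c : ℂ} {R : ℝ} (hR : 0 < R)
    (hf : DifferentiableOn ℂ f (ball c R)) (h0 : ∀ z ∈ ball c R, f z ≠ 0) :
    ∃ k : ℂ → ℂ, DifferentiableOn ℂ k (ball c R) ∧ (∀ z ∈ ball c R, k z ^ 2 = f z) ∧
      (∀ z ∈ ball c R, k z ≠ 0) ∧ (f c = 1 → k c = 1) := by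
  obtain ⟨g, hg, hge, _, hgc⟩ := exists_log_ball hR hf h0
  refine ⟨fun z => Complex.exp (g z / 2), (hg.div_const 2).cexp, ?_, ?_, ?_⟩
  · intro z hz
    rw [← Complex.exp_nat_mul, ← hge z hz]
    congr 1
    push_cast
    ring
  · intro z _
    exact Complex.exp_ne_zero _
  · intro h
    show Complex.exp (g c / 2) = 1
    rw [hgc, h, Complex.log_one, zero_div, Complex.exp_zero]

/-- Normalised univalent functions of the unit disc. -/
structure Sch (f : ℂ → ℂ) : Prop where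
  diff : DifferentiableOn ℂ f (ball 0 1)
  inj : InjOn f (ball 0 1)
  zero : f 0 = 0
  one : deriv f 0 = 1

/-- the quotient `f z / z` -/
theorem Sch.slope {f : ℂ → ℂ} (hf : Sch f) :
    DifferentiableOn ℂ (dslope f 0) (ball 0 1) ∧ (∀ z, f z = z * dslope f 0 z) ∧
      (∀ z ∈ ball (0 : ℂ) 1, dslope f 0 z ≠ 0) ∧ dslope f 0 0 = 1 := by
  have h1 : ∀ z, f z = z * dslope f 0 z := by
    intro z
    have := sub_smul_dslope f 0 z
    rw [sub_zero, smul_eq_mul, hf.zero, sub_zero] at this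
    exact this.symm
  have h2 : dslope f 0 0 = 1 := by rw [dslope_same, hf.one]
  refine ⟨dslope_diff one_pos hf.diff, h1, ?_, h2⟩
  intro z hz h
  rcases eq_or_ne z 0 with rfl | hz0
  · rw [h2] at h
    exact one_ne_zero h
  · have h3 := h1 z
    rw [h, mul_zero] at h3
    exact hz0 (hf.inj hz (mem_ball_self one_pos) (by rw [h3, hf.zero]))

theorem co_two {f : ℂ → ℂ} : co f 2 = deriv (dslope f 0) 0 := by
  rw [co_succ, co_one]

/-- **Bieberbach's inequality** for the second coefficient. -/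
theorem Sch.bieberbach {f : ℂ → ℂ} (hf : Sch f) : ‖co f 2‖ ≤ 2 := by
  obtain ⟨hd, hfz, hne, h1⟩ := hf.slope
  set h : ℂ → ℂ := dslope f 0 with hh
  obtain ⟨k, hk, hk2, hk0, hk1⟩ := exists_sqrt_ball one_pos hd hne
  have hk1' : k 0 = 1 := hk1 h1
  set v : ℂ → ℂ := fun w => (k w)⁻¹ with hv
  have hvd : DifferentiableOn ℂ v (ball 0 1) := hk.inv hk0
  have hv0 : v 0 = 1 := by rw [hv]; simp [hk1']
  set v1 : ℂ → ℂ := dslope v 0 with hv1
  have hv1d : DifferentiableOn ℂ v1 (ball 0 1) := dslope_diff one_pos hvd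
  have hvz : ∀ w, v w = 1 + w * v1 w := by
    intro w
    have := sub_smul_dslope v 0 w
    rw [sub_zero, smul_eq_mul, hv0] at this
    rw [hv1, this]
    ring
  set e : ℂ → ℂ := fun z => z * v1 (z ^ 2) with he
  have hsq : ∀ z ∈ ball (0 : ℂ) 1, z ^ 2 ∈ ball (0 : ℂ) 1 := by
    intro z hz
    rw [mem_ball_zero_iff] at hz ⊢
    rw [norm_pow]
    exact pow_lt_one₀ (norm_nonneg z) hz (by norm_num)
  have hed : DifferentiableOn ℂ e (ball 0 1) := by
    refine differentiableOn_id.mul (hv1d.comp (by fun_prop) hsq)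
  have hval : ∀ z ∈ ball (0 : ℂ) 1 \ {0}, z⁻¹ + e z = (z * k (z ^ 2))⁻¹ := by
    intro z hz
    have hz0 : z ≠ 0 := hz.2
    have h2 : v (z ^ 2) = 1 + z ^ 2 * v1 (z ^ 2) := hvz _
    rw [mul_inv, show (k (z ^ 2))⁻¹ = v (z ^ 2) from rfl, h2]
    show z⁻¹ + z * v1 (z ^ 2) = _
    field_simp
  have hinj : InjOn (fun z => z⁻¹ + e z) (ball 0 1 \ {0}) := by
    intro z hz w hw hzw
    have hzw' : z⁻¹ + e z = w⁻¹ + e w := hzw
    rw [hval z hz, hval w hw, inv_inj] at hzw'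
    have hzs := hsq z hz.1
    have hws := hsq w hw.1
    have h2 : f (z ^ 2) = f (w ^ 2) := by
      rw [hfz, hfz (w ^ 2), ← hk2 _ hzs, ← hk2 _ hws, ← mul_pow, ← mul_pow, hzw']
    have h3 : z ^ 2 = w ^ 2 := hf.inj hzs hws h2
    rw [h3] at hzw'
    exact mul_right_cancel₀ (hk0 _ hws) hzw'
  have hone := area_one hed hinj
  have h01 : (0 : ℂ) ∈ ball (0 : ℂ) 1 := mem_ball_self one_pos
  have hkd : HasDerivAt k (deriv k 0) 0 :=
    (hk.differentiableAt (isOpen_ball.mem_nhds h01)).hasDerivAt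
  have hde : deriv e 0 = v1 0 := by
    have h2 : DifferentiableAt ℂ (fun z : ℂ => v1 (z ^ 2)) 0 := by
      have h3 : DifferentiableAt ℂ v1 ((0 : ℂ) ^ 2) := by
        rw [zero_pow two_ne_zero]
        exact hv1d.differentiableAt (isOpen_ball.mem_nhds h01)
      exact h3.comp (0 : ℂ) (by fun_prop)
    have h4 : HasDerivAt e (1 * v1 (0 ^ 2) + 0 * deriv (fun z : ℂ => v1 (z ^ 2)) 0) 0 :=
      (hasDerivAt_id (0 : ℂ)).mul h2.hasDerivAt
    rw [h4.deriv]
    simp
  have hv10 : v1 0 = -deriv k 0 := by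
    rw [hv1, dslope_same]
    have h2 : HasDerivAt v (-(deriv k 0) / (k 0) ^ 2) 0 := hkd.inv (hk0 0 h01)
    rw [h2.deriv, hk1']
    simp
  have hhd : deriv h 0 = 2 * deriv k 0 := by
    have h2 : h =ᶠ[𝓝 0] fun z => k z ^ 2 := by
      filter_upwards [isOpen_ball.mem_nhds h01] with z hz
      exact (hk2 z hz).symm
    rw [h2.deriv_eq]
    have h3 := hkd.fun_pow 2
    rw [h3.deriv, hk1']
    simp
  rw [hde, hv10, norm_neg] at hone
  rw [co_two, ← hh, hhd, norm_mul]
  have : ‖(2 : ℂ)‖ = 2 := by simp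
  rw [this]
  linarith

/-- the second coefficient of a product `z * P z` -/
theorem co_two_of {F P : ℂ → ℂ} (h : F =ᶠ[𝓝 0] fun z => z * P z) (hP : DifferentiableAt ℂ P 0) :
    F 0 = 0 ∧ deriv F 0 = P 0 ∧ co F 2 = deriv P 0 := by
  have h0 : F 0 = 0 := by
    have := h.self_of_nhds
    simpa using this
  have h1 : deriv F 0 = P 0 := by
    rw [h.deriv_eq]
    have h2 : HasDerivAt (fun z => z * P z) (1 * P 0 + 0 * deriv P 0) 0 :=
      (hasDerivAt_id (0 : ℂ)).mul hP.hasDerivAt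
    rw [h2.deriv]
    ring
  refine ⟨h0, h1, ?_⟩
  rw [co_two]
  refine Filter.EventuallyEq.deriv_eq ?_
  filter_upwards [h] with z hz
  rcases eq_or_ne z 0 with rfl | hz0
  · rw [dslope_same, h1]
  · rw [dslope_of_ne _ hz0, slope_def_field, hz, h0]
    field_simp
    ring

/-- **Koebe's one quarter theorem**, omitted values. -/
theorem Sch.omitted {f : ℂ → ℂ} (hf : Sch f) {w : ℂ} (hw : ∀ z ∈ ball (0 : ℂ) 1, f z ≠ w) :
    1 / 4 ≤ ‖w‖ := by
  obtain ⟨hd, hfz, hne, h1⟩ := hf.slope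
  have h01 : (0 : ℂ) ∈ ball (0 : ℂ) 1 := mem_ball_self one_pos
  have hw0 : w ≠ 0 := by
    intro h
    exact hw 0 h01 (by rw [hf.zero, h])
  have hsub : ∀ z ∈ ball (0 : ℂ) 1, w - f z ≠ 0 := fun z hz => sub_ne_zero.mpr (hw z hz).symm
  set P : ℂ → ℂ := fun z => w * dslope f 0 z / (w - f z) with hP
  set F : ℂ → ℂ := fun z => z * P z with hF
  have hPd : DifferentiableOn ℂ P (ball 0 1) :=
    (hd.const_mul w).div (hf.diff.const_sub w) hsub
  have hPd0 : DifferentiableAt ℂ P 0 := hPd.differentiableAt (isOpen_ball.mem_nhds h01)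
  obtain ⟨hF0, hF1, hF2⟩ := co_two_of (F := F) (EventuallyEq.refl _ _) hPd0
  have hP0 : P 0 = 1 := by
    rw [hP]
    show w * dslope f 0 0 / (w - f 0) = 1
    rw [h1, hf.zero, sub_zero, mul_one, div_self hw0]
  have hFz : ∀ z, F z = w * f z / (w - f z) := by
    intro z
    show z * (w * dslope f 0 z / (w - f z)) = w * f z / (w - f z)
    rw [show w * f z = z * (w * dslope f 0 z) by rw [hfz z]; ring]
    ring
  have hFS : Sch F := by
    refine ⟨differentiableOn_id.mul hPd, ?_, hF0, by rw [hF1, hP0]⟩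
    intro x hx y hy hxy
    rw [hFz, hFz, div_eq_div_iff (hsub x hx) (hsub y hy)] at hxy
    have h2 : w ^ 2 * (f x - f y) = 0 := by linear_combination hxy
    have h3 : f x - f y = 0 := by
      rcases mul_eq_zero.mp h2 with h | h
      · exact absurd h (pow_ne_zero 2 hw0)
      · exact h
    exact hf.inj hx hy (sub_eq_zero.mp h3)
  have hP1 : deriv P 0 = co f 2 + w⁻¹ := by
    have a1 : HasDerivAt (dslope f 0) (deriv (dslope f 0) 0) 0 :=
      (hd.differentiableAt (isOpen_ball.mem_nhds h01)).hasDerivAt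
    have a2 : HasDerivAt f 1 0 := by
      have := (hf.diff.differentiableAt (isOpen_ball.mem_nhds h01)).hasDerivAt
      rwa [hf.one] at this
    have a3 := (a1.const_mul w).div (a2.const_sub w) (hsub 0 h01)
    have a4 : HasDerivAt P ((w * deriv (dslope f 0) 0 * (w - f 0) - w * dslope f 0 0 * -1) /
        (w - f 0) ^ 2) 0 := a3
    rw [a4.deriv, co_two, hf.zero, h1]
    field_simp
    ring
  have hb1 := hFS.bieberbach
  have hb2 := hf.bieberbach
  rw [hF2, hP1] at hb1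
  have hb3 : ‖w⁻¹‖ ≤ 4 := by
    have h4 : ‖(co f 2 + w⁻¹) - co f 2‖ ≤ ‖co f 2 + w⁻¹‖ + ‖co f 2‖ := norm_sub_le _ _
    rw [add_sub_cancel_left] at h4
    linarith
  rw [norm_inv] at hb3
  have hw1 : 0 < ‖w‖ := norm_pos_iff.mpr hw0
  have h5 : ‖w‖⁻¹ * ‖w‖ = 1 := inv_mul_cancel₀ hw1.ne'
  nlinarith

/-- **Koebe's one quarter theorem**. -/
theorem Sch.koebe {f : ℂ → ℂ} (hf : Sch f) : ball (0 : ℂ) (1 / 4) ⊆ f '' ball 0 1 := by
  intro w hw
  by_contra h
  have h1 := hf.omitted (w := w) (fun z hz hzw => h ⟨z, hz, hzw⟩)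
  rw [mem_ball_zero_iff] at hw
  linarith

/-- The lower growth bound. -/
theorem Sch.growth_low {f : ℂ → ℂ} (hf : Sch f) {z : ℂ} (hz : z ∈ ball (0 : ℂ) 1) :
    ‖z‖ / 4 ≤ ‖f z‖ := by
  rcases eq_or_ne z 0 with rfl | hz0
  · simp [hf.zero]
  have hz1 : ‖z‖ < 1 := mem_ball_zero_iff.mp hz
  have hzp : 0 < ‖z‖ := norm_pos_iff.mpr hz0
  set r : ℂ := (‖z‖ : ℂ) with hr
  have hr0 : r ≠ 0 := by rw [hr]; exact_mod_cast hzp.ne'
  have hrn : ‖r‖ = ‖z‖ := by rw [hr, Complex.norm_real, norm_norm]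
  have hmap : ∀ w ∈ ball (0 : ℂ) 1, r * w ∈ ball (0 : ℂ) 1 := by
    intro w hw
    rw [mem_ball_zero_iff] at hw ⊢
    rw [norm_mul, hrn]
    nlinarith [norm_nonneg w]
  have hS : Sch (fun w => r⁻¹ * f (r * w)) := by
    refine ⟨?_, ?_, ?_, ?_⟩
    · exact (hf.diff.comp (by fun_prop) hmap).const_mul _
    · intro x hx y hy hxy
      have h1 : r⁻¹ * f (r * x) = r⁻¹ * f (r * y) := hxy
      have h2 := mul_left_cancel₀ (inv_ne_zero hr0) h1
      exact mul_left_cancel₀ hr0 (hf.inj (hmap x hx) (hmap y hy) h2)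
    · show r⁻¹ * f (r * 0) = 0
      rw [mul_zero, hf.zero, mul_zero]
    · have h1 : HasDerivAt f 1 (r * 0) := by
        rw [mul_zero]
        have := (hf.diff.differentiableAt (isOpen_ball.mem_nhds (mem_ball_self one_pos))).hasDerivAt
        rwa [hf.one] at this
      have h2 : HasDerivAt (fun w : ℂ => r * w) r 0 := by
        simpa using (hasDerivAt_id (0 : ℂ)).const_mul r
      have h3 : HasDerivAt (fun w => r⁻¹ * f (r * w)) (r⁻¹ * (1 * r)) 0 :=
        (h1.comp (0 : ℂ) h2).const_mul _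
      rw [h3.deriv]
      field_simp
  have h1 := hS.omitted (w := r⁻¹ * f z) (by
    intro w hw h
    have h2 := mul_left_cancel₀ (inv_ne_zero hr0) h
    have h3 := hf.inj (hmap w hw) hz h2
    have h4 : ‖r * w‖ = ‖z‖ := by rw [h3]
    rw [norm_mul, hrn] at h4
    have h5 : ‖w‖ < 1 := mem_ball_zero_iff.mp hw
    nlinarith)
  rw [norm_mul, norm_inv, hrn] at h1
  have h2 : ‖z‖ * (1 / 4) ≤ ‖z‖ * (‖z‖⁻¹ * ‖f z‖) := mul_le_mul_of_nonneg_left h1 hzp.le
  rw [← mul_assoc, mul_inv_cancel₀ hzp.ne', one_mul] at h2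
  linarith

end Pool.Agent.Lib.MP_ae5b4e_an_UT
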