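import Pool.Agent.Lib.MP_ae5b4e_an_UT.Bessel

/-!
# MP_ae5b4e_an, univalent toolkit (UT), part 2: the area theorem

If `1/z + e z` (`e` holomorphic in the unit disc, Taylor coefficients `b_n`) is injective on the
punctured unit disc then `∑ n ‖b_n‖ ^ 2 ≤ 1`.
-/

namespace Pool.Agent.Lib.MP_ae5b4e_an_UT

open Complex MeasureTheory Set Metric Filter Topology

/-- `u + c * conj u` -/
noncomputable def El (c : ℂ) : ℂ →L[ℝ] ℂ :=
  reCLM.smulRight (1 + c) + imCLM.smulRight (I - c * I)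

theorem El_apply (c u : ℂ) : El c u = u + c * (starRingEnd ℂ) u := by
  have h1 : El c u = (u.re : ℂ) * (1 + c) + (u.im : ℂ) * (I - c * I) := by
    simp [El]
    ring
  rw [h1]
  have h2 : (starRingEnd ℂ) u = (u.re : ℂ) - (u.im : ℂ) * I := by
    apply Complex.ext <;> simp
  have h3 : u + c * ((u.re : ℂ) - (u.im : ℂ) * I) =
      ((u.re : ℂ) + (u.im : ℂ) * I) + c * ((u.re : ℂ) - (u.im : ℂ) * I) := by
    rw [Complex.re_add_im]
  rw [h2, h3]
  ring

theorem El_det (c : ℂ) : LinearMap.det ((El c : ℂ →L[ℝ] ℂ) : ℂ →ₗ[ℝ] ℂ) = 1 - ‖c‖ ^ 2 := by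
  rw [← LinearMap.det_toMatrix Complex.basisOneI, Matrix.det_fin_two]
  simp only [LinearMap.toMatrix_apply, Complex.coe_basisOneI_repr, Complex.coe_basisOneI]
  rw [← Complex.normSq_eq_norm_sq, Complex.normSq_apply]
  simp [El_apply]
  ring

theorem El_norm_le {c : ℂ} (hc : ‖c‖ ≤ 1 / 2) (u : ℂ) : ‖El c u‖ ≤ 3 / 2 * ‖u‖ := by
  rw [El_apply]
  calc ‖u + c * (starRingEnd ℂ) u‖ ≤ ‖u‖ + ‖c * (starRingEnd ℂ) u‖ := norm_add_le _ _
    _ = ‖u‖ + ‖c‖ * ‖u‖ := by rw [norm_mul, Complex.norm_conj]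
    _ ≤ 3 / 2 * ‖u‖ := by nlinarith [norm_nonneg u]

theorem El_norm_ge {c : ℂ} (hc : ‖c‖ ≤ 1 / 2) (u : ℂ) : 1 / 2 * ‖u‖ ≤ ‖El c u‖ := by
  rw [El_apply]
  have h1 : ‖u‖ ≤ ‖u + c * (starRingEnd ℂ) u‖ + ‖c * (starRingEnd ℂ) u‖ := by
    have := norm_sub_le (u + c * (starRingEnd ℂ) u) (c * (starRingEnd ℂ) u)
    rwa [add_sub_cancel_right] at this
  rw [norm_mul, Complex.norm_conj] at h1
  nlinarith [norm_nonneg u]

theorem El_surj {c : ℂ} (hc : ‖c‖ ≤ 1 / 2) (v : ℂ) : ∃ u, El c u = v := by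
  have h1 : (1 : ℂ) - c * (starRingEnd ℂ) c ≠ 0 := by
    rw [Complex.mul_conj, Complex.normSq_eq_norm_sq]
    intro h
    have h2 : ((‖c‖ ^ 2 : ℝ) : ℂ) = ((1 : ℝ) : ℂ) := by
      push_cast at h ⊢
      exact (sub_eq_zero.mp h).symm
    have h3 : ‖c‖ ^ 2 = 1 := by exact_mod_cast h2
    nlinarith [norm_nonneg c]
  refine ⟨(v - c * (starRingEnd ℂ) v) / (1 - c * (starRingEnd ℂ) c), ?_⟩
  rw [El_apply, map_div₀, map_sub, map_sub, map_mul, map_mul, map_one]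
  simp only [Complex.conj_conj]
  rw [mul_comm ((starRingEnd ℂ) c) c]
  field_simp
  ring

theorem El_inj {c : ℂ} (hc : ‖c‖ ≤ 1 / 2) {u v : ℂ} (h : El c u = El c v) : u = v := by
  have h1 : El c (u - v) = 0 := by rw [map_sub, h, sub_self]
  have h2 := El_norm_ge hc (u - v)
  rw [h1, norm_zero] at h2
  have h3 : ‖u - v‖ ≤ 0 := by linarith
  exact sub_eq_zero.mp (norm_le_zero_iff.mp h3)

/-- The complement of a disc is connected. -/
theorem preconnected_out (ρ : ℝ) : IsPreconnected {u : ℂ | ρ < ‖u‖} := by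
  have h1 : {u : ℂ | ρ < ‖u‖} = (fun p : ℝ × ℝ => circleMap 0 p.1 p.2) '' (Ioi ρ ×ˢ univ) := by
    ext u
    constructor
    · intro hu
      refine ⟨(‖u‖, Complex.arg u), ⟨hu, mem_univ _⟩, ?_⟩
      show circleMap 0 ‖u‖ (Complex.arg u) = u
      rw [circleMap_zero, Complex.norm_mul_exp_arg_mul_I]
    · rintro ⟨p, hp, rfl⟩
      have h2 : ρ < p.1 := hp.1
      show ρ < ‖circleMap 0 p.1 p.2‖
      rw [norm_circleMap_zero]
      exact lt_of_lt_of_le h2 (le_abs_self _)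
  rw [h1]
  refine (isPreconnected_Ioi.prod isPreconnected_univ).image _ ?_
  have : Continuous (fun p : ℝ × ℝ => circleMap 0 p.1 p.2) := by
    unfold circleMap; fun_prop
  exact this.continuousOn

/-- the map -/
noncomputable def ph (b : ℂ) (m : ℂ → ℂ) (z : ℂ) : ℂ := z⁻¹ + b * z + z ^ 2 * m z

theorem ph_diff {b : ℂ} {m : ℂ → ℂ} (hm : DifferentiableOn ℂ m (ball 0 1)) :
    DifferentiableOn ℂ (ph b m) (ball 0 1 \ {0}) := by
  unfold ph
  refine ((differentiableOn_inv.mono ?_).add (by fun_prop)).add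
    ((by fun_prop : DifferentiableOn ℂ (fun z : ℂ => z ^ 2) _).mul (hm.mono sdiff_subset))
  intro z hz
  exact hz.2

theorem isOpen_pd : IsOpen (ball (0 : ℂ) 1 \ {0}) := isOpen_ball.sdiff isClosed_singleton

theorem ph_open {b : ℂ} {m : ℂ → ℂ} (hm : DifferentiableOn ℂ m (ball 0 1))
    (hinj : InjOn (ph b m) (ball 0 1 \ {0})) {U : Set ℂ} (hU : IsOpen U)
    (hUs : U ⊆ ball 0 1 \ {0}) : IsOpen (ph b m '' U) := by
  rw [isOpen_iff_mem_nhds]
  rintro _ ⟨z, hz, rfl⟩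
  have hUn : U ∈ 𝓝 z := hU.mem_nhds hz
  have han : AnalyticAt ℂ (ph b m) z :=
    ((ph_diff hm).mono hUs).analyticAt hUn
  rcases han.eventually_constant_or_nhds_le_map_nhds with h | h
  · exfalso
    have h1 : ∀ᶠ w in 𝓝 z, w ∈ U ∧ ph b m w = ph b m z := (eventually_mem_set.mpr hUn).and h
    have h2 : ∀ᶠ w in 𝓝 z, w = z := by
      filter_upwards [h1] with w hw
      exact hinj (hUs hw.1) (hUs hz) hw.2
    have h3 : ({z} : Set ℂ) ∈ 𝓝 z := h2
    have h4 : IsOpen ({z} : Set ℂ) := by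
      rw [isOpen_iff_mem_nhds]
      rintro w rfl
      exact h3
    exact not_isOpen_singleton z h4
  · exact h (image_mem_map hUn)

theorem ph_tendsto {b : ℂ} {m : ℂ → ℂ} (hm : DifferentiableOn ℂ m (ball 0 1)) :
    Tendsto (ph b m) (𝓝[≠] 0) (Bornology.cobounded ℂ) := by
  have h1 : Tendsto (fun z : ℂ => z⁻¹) (𝓝[≠] 0) (Bornology.cobounded ℂ) :=
    tendsto_inv₀_nhdsNE_zero
  have h2 : ContinuousAt (fun z : ℂ => b * z + z ^ 2 * m z) 0 := by
    have : ContinuousAt m 0 := hm.continuousOn.continuousAt (ball_mem_nhds _ one_pos)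
    fun_prop
  have h3 : Tendsto (fun z : ℂ => b * z + z ^ 2 * m z) (𝓝[≠] 0) (𝓝 (b * 0 + 0 ^ 2 * m 0)) :=
    h2.tendsto.mono_left nhdsWithin_le_nhds
  have h4 : Tendsto (fun z : ℂ => z⁻¹ + (b * z + z ^ 2 * m z)) (𝓝[≠] 0) (Bornology.cobounded ℂ) := by
    rw [← tendsto_norm_atTop_iff_cobounded] at h1 ⊢
    have h5 : ∀ᶠ z in 𝓝[≠] (0 : ℂ), ‖b * z + z ^ 2 * m z‖ ≤ 1 := by
      have h6 := h3.norm
      rw [mul_zero, zero_add] at h6
      simp only [ne_eq, OfNat.ofNat_ne_zero, not_false_eq_true, zero_pow, zero_mul, norm_zero] at h6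
      filter_upwards [h6.eventually (gt_mem_nhds (zero_lt_one))] with z hz
      exact hz.le
    refine tendsto_atTop_mono' _ ?_ (tendsto_atTop_add_const_right _ (-1) h1)
    filter_upwards [h5] with z hz
    have h7 : ‖z⁻¹‖ ≤ ‖z⁻¹ + (b * z + z ^ 2 * m z)‖ + ‖b * z + z ^ 2 * m z‖ := by
      have := norm_sub_le (z⁻¹ + (b * z + z ^ 2 * m z)) (b * z + z ^ 2 * m z)
      rwa [add_sub_cancel_right] at this
    show ‖z⁻¹‖ + -1 ≤ ‖z⁻¹ + (b * z + z ^ 2 * m z)‖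
    linarith
  refine h4.congr ?_
  intro z
  unfold ph
  ring

/-- Everything outside the slightly enlarged ellipse is a value in the small punctured disc. -/
theorem ph_cover {b : ℂ} {m : ℂ → ℂ} (hm : DifferentiableOn ℂ m (ball 0 1))
    (hinj : InjOn (ph b m) (ball 0 1 \ {0})) {r M : ℝ} (hr : 0 < r) (hr1 : r < 1) (hM0 : 0 ≤ M)
    (hM : ∀ z, ‖z‖ = r → ‖m z‖ ≤ M) (hb : ‖b * (r ^ 2 : ℝ)‖ ≤ 1 / 2) {u : ℂ}
    (hu : r⁻¹ + 2 * M * r ^ 2 < ‖u‖) :
    ∃ z ∈ ball (0 : ℂ) r \ {0}, ph b m z = El (b * (r ^ 2 : ℝ)) u := by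
  set c : ℂ := b * (r ^ 2 : ℝ) with hc
  set ρ : ℝ := r⁻¹ + 2 * M * r ^ 2 with hρ
  have hρ0 : 0 < ρ := by positivity
  have hsub : ball (0 : ℂ) r \ {0} ⊆ ball 0 1 \ {0} :=
    sdiff_subset_sdiff_left (ball_subset_ball hr1.le)
  set D : Set ℂ := El c '' {u : ℂ | ρ < ‖u‖} with hD
  have hDp : IsPreconnected D := (preconnected_out ρ).image _ (El c).continuous.continuousOn
  set V : Set ℂ := ph b m '' (ball (0 : ℂ) r \ {0}) with hV
  have hVo : IsOpen V := ph_open hm hinj (isOpen_ball.sdiff isClosed_singleton) hsub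
  have hDbig : ∀ w : ℂ, 3 / 2 * ρ < ‖w‖ → w ∈ D := by
    intro w hw
    obtain ⟨u, hu⟩ := El_surj hb w
    refine ⟨u, ?_, hu⟩
    have := El_norm_le hb u
    rw [hu] at this
    show ρ < ‖u‖
    linarith
  have hne : (D ∩ V).Nonempty := by
    have h1 := ph_tendsto (b := b) hm
    rw [← tendsto_norm_atTop_iff_cobounded] at h1
    have h2 := (h1.eventually (eventually_gt_atTop (3 / 2 * ρ))).and
      ((eventually_mem_set.mpr (self_mem_nhdsWithin (a := (0 : ℂ)) (s := {0}ᶜ))).and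
      ((eventually_mem_set.mpr (ball_mem_nhds (0 : ℂ) hr)).filter_mono nhdsWithin_le_nhds))
    obtain ⟨z, hz1, hz2, hz3⟩ := h2.exists
    exact ⟨ph b m z, hDbig _ hz1, z, ⟨hz3, hz2⟩, rfl⟩
  have hcl : closure V ∩ D ⊆ V := by
    rintro w ⟨hw, hwD⟩
    rw [mem_closure_iff_seq_limit] at hw
    obtain ⟨x, hx, hxw⟩ := hw
    choose z hz hzx using hx
    have hzb : ∀ n, z n ∈ closedBall (0 : ℂ) r := fun n => ball_subset_closedBall (hz n).1
    obtain ⟨a, ha, φ, hφ, hφa⟩ := (isCompact_closedBall (0 : ℂ) r).tendsto_subseq hzb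
    have hxφ : Tendsto (fun n => ph b m (z (φ n))) atTop (𝓝 w) := by
      have := hxw.comp hφ.tendsto_atTop
      refine this.congr ?_
      intro n
      exact (hzx (φ n)).symm
    have ha0 : a ≠ 0 := by
      rintro rfl
      have h1 : Tendsto (fun n => z (φ n)) atTop (𝓝[≠] 0) := by
        rw [tendsto_nhdsWithin_iff]
        exact ⟨hφa, Eventually.of_forall fun n => (hz (φ n)).2⟩
      have h2 := (ph_tendsto (b := b) hm).comp h1
      rw [← tendsto_norm_atTop_iff_cobounded] at h2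
      exact not_tendsto_nhds_of_tendsto_atTop h2 _ (hxφ.norm)
    have har : ‖a‖ ≤ r := mem_closedBall_zero_iff.mp ha
    have hain : a ∈ ball (0 : ℂ) 1 \ {0} := ⟨mem_ball_zero_iff.mpr (by linarith), ha0⟩
    have hca : ContinuousAt (ph b m) a :=
      (ph_diff hm).continuousOn.continuousAt (isOpen_pd.mem_nhds hain)
    have hwa : ph b m a = w := tendsto_nhds_unique (hca.tendsto.comp hφa) hxφ
    rcases lt_or_eq_of_le har with h | h
    · exact ⟨a, ⟨mem_ball_zero_iff.mpr h, ha0⟩, hwa⟩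
    · exfalso
      obtain ⟨u, hu, huw⟩ := hwD
      have hu' : ρ < ‖u‖ := hu
      -- `ph a = El c a⁻¹ + a ^ 2 * m a`
      have hconj : (starRingEnd ℂ) (a⁻¹) * ((r ^ 2 : ℝ) : ℂ) = a := by
        have h1 : a * (starRingEnd ℂ) a = ((r ^ 2 : ℝ) : ℂ) := by
          rw [Complex.mul_conj, Complex.normSq_eq_norm_sq, h]
        have h2 : (starRingEnd ℂ) a ≠ 0 := (map_ne_zero _).mpr ha0
        rw [map_inv₀, ← h1]
        field_simp
      have h1 : El c a⁻¹ = a⁻¹ + b * a := by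
        rw [El_apply, hc, mul_assoc, mul_comm (((r ^ 2 : ℝ) : ℂ)), hconj]
      have h2 : El c (u - a⁻¹) = a ^ 2 * m a := by
        rw [map_sub, huw, ← hwa, h1, ph]
        ring
      have h3 := El_norm_ge hb (u - a⁻¹)
      rw [h2, norm_mul, norm_pow, h] at h3
      have h4 := hM a h
      have h5 : ‖u‖ ≤ ‖u - a⁻¹‖ + ‖a⁻¹‖ := by
        have := norm_add_le (u - a⁻¹) a⁻¹
        rwa [sub_add_cancel] at this
      rw [norm_inv, h] at h5
      have h6 : r ^ 2 * ‖m a‖ ≤ r ^ 2 * M := mul_le_mul_of_nonneg_left h4 (by positivity)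
      rw [hρ] at hu'
      linarith
  have hfin := hDp.subset_of_closure_inter_subset hVo hne hcl
  obtain ⟨z, hz, hzu⟩ := hfin (show El c u ∈ D from ⟨u, hu, rfl⟩)
  exact ⟨z, hz, hzu⟩

/-- derivative of the map -/
theorem ph_deriv {b : ℂ} {m : ℂ → ℂ} (hm : DifferentiableOn ℂ m (ball 0 1)) {z : ℂ}
    (hz : z ∈ ball (0 : ℂ) 1 \ {0}) :
    HasDerivAt (ph b m) (-(z ^ 2)⁻¹ + b + (2 * z * m z + z ^ 2 * deriv m z)) z := by
  have h1 : HasDerivAt m (deriv m z) z :=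
    (hm.differentiableAt (isOpen_ball.mem_nhds hz.1)).hasDerivAt
  have hz0 : z ≠ 0 := hz.2
  have h2 : HasDerivAt (fun w : ℂ => w⁻¹) (-(z ^ 2)⁻¹) z := hasDerivAt_inv hz0
  have h3 : HasDerivAt (fun w : ℂ => b * w) b z := by
    simpa using (hasDerivAt_id z).const_mul b
  have h4 : HasDerivAt (fun w : ℂ => w ^ 2 * m w) (2 * z * m z + z ^ 2 * deriv m z) z := by
    have h5 := (hasDerivAt_pow 2 z).fun_mul h1
    refine h5.congr_deriv ?_
    simp
  exact (h2.add h3).add h4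

/-- upper bound of the area of the image of an annulus, with all errors -/
theorem area_up {b : ℂ} {m : ℂ → ℂ} (hm : DifferentiableOn ℂ m (ball 0 1))
    (hinj : InjOn (ph b m) (ball 0 1 \ {0})) {D : ℂ → ℂ}
    (hD : ∀ z ∈ ball (0 : ℂ) 1 \ {0}, HasDerivAt (ph b m) (D z) z)
    {r s M : ℝ} (hr : 0 < r) (hrs : r ≤ s) (hs : s < 1)
    (hM0 : 0 ≤ M) (hM : ∀ z, ‖z‖ = r → ‖m z‖ ≤ M) (hb : ‖b * (r ^ 2 : ℝ)‖ ≤ 1 / 2) :
    ∫ z in ann r s, ‖D z‖ ^ 2 ≤ Real.pi * (r⁻¹ + 2 * M * r ^ 2) ^ 2 := by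
  have hpi := Real.pi_pos
  have hAsub : ann r s ⊆ ball (0 : ℂ) 1 \ {0} := by
    intro z hz
    refine ⟨mem_ball_zero_iff.mpr (lt_trans hz.2 hs), ?_⟩
    rintro rfl
    have := hz.1
    rw [norm_zero] at this
    linarith
  set c : ℂ := b * (r ^ 2 : ℝ) with hc
  set ρ : ℝ := r⁻¹ + 2 * M * r ^ 2 with hρ
  have hρ0 : 0 < ρ := by positivity
  -- image inside the ellipse
  have himg : ph b m '' (ann r s) ⊆ El c '' closedBall 0 ρ := by
    rintro _ ⟨z, hz, rfl⟩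
    obtain ⟨u, hu⟩ := El_surj hb (ph b m z)
    refine ⟨u, ?_, hu⟩
    rw [mem_closedBall_zero_iff]
    by_contra hcon
    push Not at hcon
    obtain ⟨z', hz', hzz⟩ := ph_cover hm hinj hr (by linarith) hM0 hM hb hcon
    have h1 : z' = z := by
      refine hinj ?_ (hAsub hz) (by rw [hzz]; exact hu)
      exact ⟨ball_subset_ball (by linarith) hz'.1, hz'.2⟩
    have h2 : ‖z'‖ < r := mem_ball_zero_iff.mp hz'.1
    rw [h1] at h2
    have := hz.1
    linarith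
  have hdetc : ∀ w : ℂ, |(ContinuousLinearMap.restrictScalars ℝ
      (ContinuousLinearMap.toSpanSingleton ℂ w)).det| = ‖w‖ ^ 2 := by
    intro w
    have h1 : (ContinuousLinearMap.restrictScalars ℝ
      (ContinuousLinearMap.toSpanSingleton ℂ w)).det = LinearMap.det
        ((ContinuousLinearMap.restrictScalars ℝ (ContinuousLinearMap.toSpanSingleton ℂ w) :
          ℂ →L[ℝ] ℂ) : ℂ →ₗ[ℝ] ℂ) := rfl
    rw [h1, ← LinearMap.det_toMatrix Complex.basisOneI, Matrix.det_fin_two]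
    simp only [LinearMap.toMatrix_apply, Complex.coe_basisOneI_repr, Complex.coe_basisOneI]
    rw [← Complex.normSq_eq_norm_sq, Complex.normSq_apply]
    have h2 : 0 ≤ w.re * w.re + w.im * w.im := by nlinarith [sq_nonneg w.re, sq_nonneg w.im]
    have h3 : (w.re * w.re + w.im * w.im) = |w.re * w.re + w.im * w.im| := (abs_of_nonneg h2).symm
    rw [h3]
    congr 1
    simp
  have hder : ∀ z ∈ ann r s, HasFDerivWithinAt (ph b m) (ContinuousLinearMap.restrictScalars ℝ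
      (ContinuousLinearMap.toSpanSingleton ℂ (D z))) (ann r s) z := by
    intro z hz
    exact ((hD z (hAsub hz)).hasFDerivAt.restrictScalars ℝ).hasFDerivWithinAt
  have hvol := lintegral_abs_det_fderiv_eq_addHaar_image (volume : Measure ℂ)
    (isOpen_ann r s).measurableSet hder (hinj.mono hAsub)
  simp only [hdetc] at hvol
  have hle : volume (ph b m '' (ann r s)) ≤ ENNReal.ofReal (Real.pi * ρ ^ 2) := by
    refine le_trans (measure_mono himg) ?_
    have h1 : (El c '' closedBall (0 : ℂ) ρ) =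
        (((El c : ℂ →L[ℝ] ℂ) : ℂ →ₗ[ℝ] ℂ) '' closedBall (0 : ℂ) ρ) := rfl
    rw [h1, Measure.addHaar_image_linearMap, El_det, Complex.volume_closedBall]
    have h2 : |1 - ‖c‖ ^ 2| ≤ 1 := by
      rw [abs_le]
      constructor <;> nlinarith [norm_nonneg c, hb, sq_nonneg ‖c‖]
    calc ENNReal.ofReal |1 - ‖c‖ ^ 2| * (ENNReal.ofReal ρ ^ 2 * (NNReal.pi : ENNReal))
        ≤ 1 * (ENNReal.ofReal ρ ^ 2 * (NNReal.pi : ENNReal)) := by
          refine mul_le_mul_left ?_ _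
          rw [← ENNReal.ofReal_one]
          exact ENNReal.ofReal_le_ofReal h2
      _ = ENNReal.ofReal (Real.pi * ρ ^ 2) := by
          rw [one_mul, ← ENNReal.ofReal_pow hρ0.le, mul_comm Real.pi,
            ENNReal.ofReal_mul (by positivity)]
          congr 1
          exact (ENNReal.ofReal_coe_nnreal (p := NNReal.pi)).symm
  rw [← hvol] at hle
  have hDc : ContinuousOn D (ball (0 : ℂ) 1 \ {0}) := by
    have h1 : DifferentiableOn ℂ (deriv (ph b m)) (ball (0 : ℂ) 1 \ {0}) :=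
      (ph_diff hm).deriv isOpen_pd
    exact h1.continuousOn.congr (fun z hz => ((hD z hz).deriv).symm)
  have hcontA : ContinuousOn (fun z : ℂ => ‖D z‖ ^ 2) {z | r ≤ ‖z‖ ∧ ‖z‖ ≤ s} := by
    refine ContinuousOn.pow (ContinuousOn.norm (hDc.mono ?_)) 2
    intro z hz
    refine ⟨mem_ball_zero_iff.mpr (lt_of_le_of_lt hz.2 hs), ?_⟩
    rintro rfl
    have := hz.1
    rw [norm_zero] at this
    linarith
  have hcomp : IsCompact {z : ℂ | r ≤ ‖z‖ ∧ ‖z‖ ≤ s} := by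
    refine (isCompact_closedBall (0 : ℂ) s).of_isClosed_subset ?_ ?_
    · exact (isClosed_le continuous_const continuous_norm).inter
        (isClosed_le continuous_norm continuous_const)
    · intro z hz
      exact mem_closedBall_zero_iff.mpr hz.2
  have hint : IntegrableOn (fun z : ℂ => ‖D z‖ ^ 2) (ann r s) :=
    (hcontA.integrableOn_compact hcomp).mono_set (fun z hz => ⟨hz.1.le, hz.2.le⟩)
  rw [integral_eq_lintegral_of_nonneg_ae (Eventually.of_forall fun z => by positivity)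
    hint.aestronglyMeasurable]
  exact ENNReal.toReal_le_of_le_ofReal (by positivity) hle

/-- the coefficient of `z` -/
theorem co_one (e : ℂ → ℂ) : co e 1 = deriv e 0 := by
  rw [co_succ, co_zero, dslope_same]

/-- second order Taylor formula with division -/
theorem expand_two (e : ℂ → ℂ) (z : ℂ) :
    e z = e 0 + co e 1 * z + z ^ 2 * dslope (dslope e 0) 0 z := by
  have h1 := sub_smul_dslope e 0 z
  have h2 := sub_smul_dslope (dslope e 0) 0 z
  rw [sub_zero, smul_eq_mul] at h1 h2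
  rw [dslope_same] at h2
  rw [co_one]
  have h3 : e z = e 0 + z * dslope e 0 z := by rw [h1]; ring
  have h4 : dslope e 0 z = deriv e 0 + z * dslope (dslope e 0) 0 z := by rw [h2]; ring
  rw [h3, h4]
  ring

/-- **The area theorem**, finite form. -/
theorem area_fin {e : ℂ → ℂ} (he : DifferentiableOn ℂ e (ball 0 1))
    (hinj : InjOn (fun z => z⁻¹ + e z) (ball 0 1 \ {0})) (N : ℕ) :
    ∑ k ∈ Finset.range N, (k + 1) * ‖co e (k + 1)‖ ^ 2 ≤ 1 := by
  have hpi := Real.pi_pos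
  set b : ℂ := co e 1 with hb
  set m : ℂ → ℂ := dslope (dslope e 0) 0 with hmdef
  have hm : DifferentiableOn ℂ m (ball 0 1) := dslope_diff one_pos (dslope_diff one_pos he)
  have hexp : ∀ z, z⁻¹ + e z = ph b m z + e 0 := by
    intro z
    rw [expand_two e z, ph]
    ring
  have hinj' : InjOn (ph b m) (ball 0 1 \ {0}) := by
    intro x hx y hy hxy
    refine hinj hx hy ?_
    show x⁻¹ + e x = y⁻¹ + e y
    rw [hexp, hexp, hxy]
  have hD : ∀ z ∈ ball (0 : ℂ) 1 \ {0}, HasDerivAt (ph b m) (-(z ^ 2)⁻¹ + deriv e z) z := by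
    intro z hz
    have h1 : HasDerivAt e (deriv e z) z :=
      (he.differentiableAt (isOpen_ball.mem_nhds hz.1)).hasDerivAt
    have h2 : HasDerivAt (fun w : ℂ => w⁻¹) (-(z ^ 2)⁻¹) z := hasDerivAt_inv hz.2
    have h3 : HasDerivAt (fun w => w⁻¹ + e w - e 0) (-(z ^ 2)⁻¹ + deriv e z) z :=
      (h2.add h1).sub_const (e 0)
    refine h3.congr_of_eventuallyEq (Eventually.of_forall fun w => ?_)
    show ph b m w = w⁻¹ + e w - e 0
    rw [hexp w]
    ring
  -- bound for `m` near zero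
  obtain ⟨M, hM0, hM⟩ : ∃ M : ℝ, 0 ≤ M ∧ ∀ z, ‖z‖ ≤ 1 / 2 → ‖m z‖ ≤ M := by
    have h1 : IsCompact (closedBall (0 : ℂ) (1 / 2)) := isCompact_closedBall _ _
    have h2 : ContinuousOn m (closedBall (0 : ℂ) (1 / 2)) :=
      hm.continuousOn.mono (closedBall_subset_ball (by norm_num))
    obtain ⟨M, hM⟩ := h1.exists_bound_of_continuousOn h2
    refine ⟨max M 0, le_max_right _ _, fun z hz => ?_⟩
    exact le_trans (hM z (mem_closedBall_zero_iff.mpr hz)) (le_max_left _ _)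
  -- limit `r → 0`
  have hstep : ∀ s : ℝ, 0 < s → s < 1 →
      ∑ k ∈ Finset.range N, (k + 1) * ‖co e (k + 1)‖ ^ 2 * s ^ (2 * k + 2) ≤ (s ^ 2)⁻¹ := by
    intro s hs0 hs1
    have hev : ∀ᶠ r in 𝓝[>] (0 : ℝ), (∑ k ∈ Finset.range N, (k + 1) * ‖co e (k + 1)‖ ^ 2 *
        (s ^ (2 * k + 2) - r ^ (2 * k + 2))) - (s ^ 2)⁻¹ ≤ 4 * M * r + 4 * M ^ 2 * r ^ 4 := by
      have e1 : ∀ᶠ r in 𝓝[>] (0 : ℝ), 0 < r := self_mem_nhdsWithin
      have e2 : ∀ᶠ r in 𝓝[>] (0 : ℝ), r < min s (1 / 2) :=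
        nhdsWithin_le_nhds (gt_mem_nhds (lt_min hs0 (by norm_num)))
      have e3 : ∀ᶠ r in 𝓝[>] (0 : ℝ), ‖b * (r ^ 2 : ℝ)‖ ≤ 1 / 2 := by
        have h1 : Continuous (fun r : ℝ => ‖b * (r ^ 2 : ℝ)‖) := by fun_prop
        have h2 : Tendsto (fun r : ℝ => ‖b * (r ^ 2 : ℝ)‖) (𝓝[>] (0 : ℝ)) (𝓝 0) := by
          have := h1.tendsto 0
          simp only [ne_eq, OfNat.ofNat_ne_zero, not_false_eq_true, zero_pow, Complex.ofReal_zero, mul_zero,
            norm_zero] at this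
          exact this.mono_left nhdsWithin_le_nhds
        filter_upwards [h2.eventually (gt_mem_nhds (show (0 : ℝ) < 1 / 2 by norm_num))] with r hr
        exact hr.le
      filter_upwards [e1, e2, e3] with r h1 h2 h3
      have hrs : r < s := lt_of_lt_of_le h2 (min_le_left _ _)
      have hr2 : r < 1 / 2 := lt_of_lt_of_le h2 (min_le_right _ _)
      have h4 := area_up hm hinj' hD h1 hrs.le hs1 hM0
        (fun z hz => hM z (by rw [hz]; exact hr2.le)) h3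
      have h5 := le_of_mul_le_mul_left (le_trans (area_low' h1 hrs.le hs1 he N) h4) hpi
      have h6 : (r⁻¹ + 2 * M * r ^ 2) ^ 2 = (r ^ 2)⁻¹ + (4 * M * r + 4 * M ^ 2 * r ^ 4) := by
        field_simp
        ring
      rw [h6] at h5
      linarith
    have hl : Tendsto (fun r : ℝ => (∑ k ∈ Finset.range N, (k + 1) * ‖co e (k + 1)‖ ^ 2 *
        (s ^ (2 * k + 2) - r ^ (2 * k + 2))) - (s ^ 2)⁻¹) (𝓝[>] (0 : ℝ))
        (𝓝 ((∑ k ∈ Finset.range N, (k + 1) * ‖co e (k + 1)‖ ^ 2 *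
        (s ^ (2 * k + 2) - 0 ^ (2 * k + 2))) - (s ^ 2)⁻¹)) := by
      have : Continuous (fun r : ℝ => (∑ k ∈ Finset.range N, (k + 1) * ‖co e (k + 1)‖ ^ 2 *
        (s ^ (2 * k + 2) - r ^ (2 * k + 2))) - (s ^ 2)⁻¹) := by fun_prop
      exact (this.tendsto 0).mono_left nhdsWithin_le_nhds
    have hr : Tendsto (fun r : ℝ => 4 * M * r + 4 * M ^ 2 * r ^ 4) (𝓝[>] (0 : ℝ))
        (𝓝 (4 * M * 0 + 4 * M ^ 2 * 0 ^ 4)) := by
      have : Continuous (fun r : ℝ => 4 * M * r + 4 * M ^ 2 * r ^ 4) := by fun_prop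
      exact (this.tendsto 0).mono_left nhdsWithin_le_nhds
    have hlim := le_of_tendsto_of_tendsto hl hr hev
    have h7 : ∑ k ∈ Finset.range N, (k + 1) * ‖co e (k + 1)‖ ^ 2 *
        (s ^ (2 * k + 2) - 0 ^ (2 * k + 2)) =
        ∑ k ∈ Finset.range N, (k + 1) * ‖co e (k + 1)‖ ^ 2 * s ^ (2 * k + 2) := by
      refine Finset.sum_congr rfl fun k _ => ?_
      rw [zero_pow (by omega), sub_zero]
    rw [h7] at hlim
    norm_num at hlim
    linarith
  -- limit `s → 1`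
  have hev : ∀ᶠ s in 𝓝[<] (1 : ℝ),
      ∑ k ∈ Finset.range N, (k + 1) * ‖co e (k + 1)‖ ^ 2 * s ^ (2 * k + 2) ≤ (s ^ 2)⁻¹ := by
    filter_upwards [Ioo_mem_nhdsLT (show (0 : ℝ) < 1 by norm_num)] with s hs
    exact hstep s hs.1 hs.2
  have hl : Tendsto (fun s : ℝ => ∑ k ∈ Finset.range N, (k + 1) * ‖co e (k + 1)‖ ^ 2 *
      s ^ (2 * k + 2)) (𝓝[<] (1 : ℝ))
      (𝓝 (∑ k ∈ Finset.range N, (k + 1) * ‖co e (k + 1)‖ ^ 2 * (1 : ℝ) ^ (2 * k + 2))) := by
    have : Continuous (fun s : ℝ => ∑ k ∈ Finset.range N, (k + 1) * ‖co e (k + 1)‖ ^ 2 *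
      s ^ (2 * k + 2)) := by fun_prop
    exact (this.tendsto 1).mono_left nhdsWithin_le_nhds
  have hr : Tendsto (fun s : ℝ => (s ^ 2)⁻¹) (𝓝[<] (1 : ℝ)) (𝓝 ((1 ^ 2)⁻¹)) := by
    have : ContinuousAt (fun s : ℝ => (s ^ 2)⁻¹) 1 := by
      refine ContinuousAt.inv₀ (by fun_prop) (by norm_num)
    exact this.tendsto.mono_left nhdsWithin_le_nhds
  have hlim := le_of_tendsto_of_tendsto hl hr hev
  simpa using hlim

/-- **The area theorem**. -/
theorem area_theorem {e : ℂ → ℂ} (he : DifferentiableOn ℂ e (ball 0 1))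
    (hinj : InjOn (fun z => z⁻¹ + e z) (ball 0 1 \ {0})) :
    Summable (fun k : ℕ => (k + 1) * ‖co e (k + 1)‖ ^ 2) ∧
      ∑' k : ℕ, (k + 1) * ‖co e (k + 1)‖ ^ 2 ≤ 1 := by
  have h0 : ∀ k : ℕ, 0 ≤ (k + 1) * ‖co e (k + 1)‖ ^ 2 := fun k => by positivity
  have h1 : Summable (fun k : ℕ => (k + 1) * ‖co e (k + 1)‖ ^ 2) :=
    summable_of_sum_range_le h0 (area_fin he hinj)
  exact ⟨h1, Summable.tsum_le_of_sum_range_le h1 (area_fin he hinj)⟩

/-- The first coefficient. -/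
theorem area_one {e : ℂ → ℂ} (he : DifferentiableOn ℂ e (ball 0 1))
    (hinj : InjOn (fun z => z⁻¹ + e z) (ball 0 1 \ {0})) : ‖deriv e 0‖ ≤ 1 := by
  have h1 := area_fin he hinj 1
  rw [Finset.sum_range_one, co_one] at h1
  norm_num at h1
  exact h1

end Pool.Agent.Lib.MP_ae5b4e_an_UT
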