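import Pool.Agent.Lib.MP_ae5b4e_an_UT.Polar

/-!
# MP_ae5b4e_an, univalent toolkit (UT), part 1b

Bessel's inequality for the Taylor coefficients of a holomorphic function and the lower bound of
the area of the image of an annulus under `1/z + e z` with all Taylor coefficients of `e`.
-/

namespace Pool.Agent.Lib.MP_ae5b4e_an_UT

open Complex MeasureTheory Set Metric Filter Topology

/-- Taylor coefficients at zero, by iterated division. -/
noncomputable def co (H : ℂ → ℂ) (k : ℕ) : ℂ := ((Function.swap dslope (0 : ℂ))^[k] H) 0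

theorem co_zero (H : ℂ → ℂ) : co H 0 = H 0 := rfl

theorem co_succ (H : ℂ → ℂ) (k : ℕ) : co H (k + 1) = co (dslope H 0) k := rfl

/-- Taylor's formula for the coefficients `co`. -/
theorem co_eq {H : ℂ → ℂ} (hH : DifferentiableOn ℂ H (ball 0 1)) (k : ℕ) :
    co H k = iteratedDeriv k H 0 / k.factorial := by
  have han : AnalyticAt ℂ H 0 := hH.analyticAt (ball_mem_nhds _ one_pos)
  have h1 := han.hasFPowerSeriesAt
  have h2 := h1.has_fpower_series_iterate_dslope_fslope k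
  have h3 := h2.coeff_zero 1
  rw [← FormalMultilinearSeries.coeff, FormalMultilinearSeries.coeff_iterate_fslope, zero_add,
    FormalMultilinearSeries.coeff_ofScalars] at h3
  rw [co, ← h3]

theorem co_hasSum {H : ℂ → ℂ} (hH : DifferentiableOn ℂ H (ball 0 1)) {z : ℂ}
    (hz : z ∈ ball (0 : ℂ) 1) : HasSum (fun k => co H k * z ^ k) (H z) := by
  have h1 := Complex.hasSum_taylorSeries_on_ball hH hz
  have h2 : (fun k => co H k * z ^ k) =
      fun n : ℕ => (n.factorial : ℂ)⁻¹ • (z - 0) ^ n • iteratedDeriv n H 0 := by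
    funext k
    rw [co_eq hH, sub_zero, smul_eq_mul, smul_eq_mul]
    ring
  rw [h2]
  exact h1

theorem co_deriv {H : ℂ → ℂ} (hH : DifferentiableOn ℂ H (ball 0 1)) (k : ℕ) :
    co (deriv H) k = (k + 1) * co H (k + 1) := by
  rw [co_eq (hH.deriv isOpen_ball), co_eq hH, ← iteratedDeriv_succ', Nat.factorial_succ]
  have h1 : ((k.factorial : ℕ) : ℂ) ≠ 0 := by exact_mod_cast k.factorial_ne_zero
  have h2 : ((k : ℂ) + 1) ≠ 0 := by exact_mod_cast Nat.succ_ne_zero k
  push_cast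
  field_simp

theorem dslope_diff {H : ℂ → ℂ} {R : ℝ} (hR : 0 < R) (hH : DifferentiableOn ℂ H (ball 0 R)) :
    DifferentiableOn ℂ (dslope H 0) (ball 0 R) :=
  (Complex.differentiableOn_dslope (ball_mem_nhds _ hR)).mpr hH

/-- Bessel's inequality for Taylor coefficients. -/
theorem bessel {ρ : ℝ} (hρ : 0 < ρ) (K : ℕ) : ∀ {H : ℂ → ℂ} {R : ℝ}, ρ < R →
    DifferentiableOn ℂ H (ball 0 R) →
    2 * Real.pi * ∑ k ∈ Finset.range K, ‖co H k‖ ^ 2 * ρ ^ (2 * k) ≤
      ∫ θ in (-Real.pi)..Real.pi, ‖H (circleMap 0 ρ θ)‖ ^ 2 := by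
  have hpi := Real.pi_pos
  induction K with
  | zero =>
    intro H R _ _
    rw [Finset.range_zero, Finset.sum_empty, mul_zero]
    exact intervalIntegral.integral_nonneg (by linarith) (fun θ _ => by positivity)
  | succ K ih =>
    intro H R hR hH
    have hR0 : 0 < R := lt_trans hρ hR
    have hH1 := dslope_diff hR0 hH
    have ih1 := ih hR hH1
    have hclb : closedBall (0 : ℂ) ρ ⊆ ball 0 R := closedBall_subset_ball hR
    have hcc : ∀ {G : ℂ → ℂ}, DifferentiableOn ℂ G (ball 0 R) →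
        Continuous (fun θ : ℝ => G (circleMap 0 ρ θ)) := by
      intro G hG
      exact continuousOn_univ.mp (hG.continuousOn.comp (continuous_circleMap 0 ρ).continuousOn
        (fun θ _ => hclb (circleMap_mem_closedBall 0 hρ.le θ)))
    have hdc : ∀ {G : ℂ → ℂ}, DifferentiableOn ℂ G (ball 0 R) → DiffContOnCl ℂ G (ball 0 ρ) := by
      intro G hG
      refine DifferentiableOn.diffContOnCl (hG.mono ?_)
      rw [closure_ball _ hρ.ne']
      exact hclb
    set H1 : ℂ → ℂ := dslope H 0 with hH1def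
    have hHz : ∀ z, H z = H 0 + z * H1 z := by
      intro z
      have := sub_smul_dslope H 0 z
      rw [sub_zero, smul_eq_mul] at this
      rw [hH1def, this]
      ring
    have hcd : DifferentiableOn ℂ (fun z => (starRingEnd ℂ) (H 0) * (z * H1 z)) (ball 0 R) := by
      fun_prop
    have hmv := integral_circle_eq hρ (hdc hcd)
    rw [zero_mul, mul_zero, Complex.zero_re, mul_zero] at hmv
    have key : ∀ θ : ℝ, ‖H (circleMap 0 ρ θ)‖ ^ 2 = (‖H 0‖ ^ 2 + ρ ^ 2 * ‖H1 (circleMap 0 ρ θ)‖ ^ 2) +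
        2 * ((starRingEnd ℂ) (H 0) * (circleMap 0 ρ θ * H1 (circleMap 0 ρ θ))).re := by
      intro θ
      set z := circleMap 0 ρ θ with hz
      have hzn : ‖z‖ = ρ := by rw [hz, norm_circleMap_zero, abs_of_pos hρ]
      rw [hHz z, ← Complex.normSq_eq_norm_sq, Complex.normSq_add, Complex.normSq_mul,
        Complex.normSq_eq_norm_sq, Complex.normSq_eq_norm_sq, Complex.normSq_eq_norm_sq, hzn]
      have : (H 0 * (starRingEnd ℂ) (z * H1 z)).re = ((starRingEnd ℂ) (H 0) * (z * H1 z)).re := by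
        simp only [Complex.mul_re, Complex.mul_im, Complex.conj_re, Complex.conj_im]; ring
      rw [this]
    have hi1 : IntervalIntegrable (fun θ => ρ ^ 2 * ‖H1 (circleMap 0 ρ θ)‖ ^ 2) volume
        (-Real.pi) Real.pi :=
      (continuous_const.mul ((hcc hH1).norm.pow 2)).intervalIntegrable _ _
    have hi2 : IntervalIntegrable (fun θ => 2 * ((starRingEnd ℂ) (H 0) *
        (circleMap 0 ρ θ * H1 (circleMap 0 ρ θ))).re) volume (-Real.pi) Real.pi :=
      (continuous_const.mul (Complex.continuous_re.comp (hcc hcd))).intervalIntegrable _ _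
    have hi0 : IntervalIntegrable (fun _ : ℝ => ‖H 0‖ ^ 2) volume (-Real.pi) Real.pi :=
      continuous_const.intervalIntegrable _ _
    simp only [key]
    rw [intervalIntegral.integral_add (hi0.add hi1) hi2, intervalIntegral.integral_add hi0 hi1,
      intervalIntegral.integral_const_mul, intervalIntegral.integral_const_mul, hmv,
      intervalIntegral.integral_const, smul_eq_mul, Finset.sum_range_succ']
    have h5 : ∑ k ∈ Finset.range K, ‖co H (k + 1)‖ ^ 2 * ρ ^ (2 * (k + 1)) =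
        ρ ^ 2 * ∑ k ∈ Finset.range K, ‖co H1 k‖ ^ 2 * ρ ^ (2 * k) := by
      rw [Finset.mul_sum]
      refine Finset.sum_congr rfl fun k _ => ?_
      rw [co_succ]
      ring
    rw [h5, co_zero]
    have h6 := mul_le_mul_of_nonneg_left ih1 (sq_nonneg ρ)
    have h7 : ρ ^ (2 * 0) = 1 := by simp
    rw [h7]
    linarith [h6]

/-- The lower bound on a circle with all coefficients. -/
theorem circle_low' {e : ℂ → ℂ} {ρ : ℝ} (hρ : 0 < ρ) (hρ1 : ρ < 1)
    (he : DifferentiableOn ℂ e (ball 0 1)) (N : ℕ) :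
    2 * Real.pi * ((ρ ^ 4)⁻¹ + ∑ k ∈ Finset.range N, ((k + 1) * ‖co e (k + 1)‖) ^ 2 * ρ ^ (2 * k)) ≤
      ∫ θ in (-Real.pi)..Real.pi, ‖-((circleMap 0 ρ θ) ^ 2)⁻¹ + deriv e (circleMap 0 ρ θ)‖ ^ 2 := by
  have hG : DifferentiableOn ℂ (deriv e) (ball 0 1) := he.deriv isOpen_ball
  set G := deriv e with hGdef
  have h01 : (0 : ℂ) ∈ ball (0 : ℂ) 1 := mem_ball_self one_pos
  have hGc : ContinuousAt G 0 := hG.continuousOn.continuousAt (ball_mem_nhds _ one_pos)
  -- `H = -1 + z (z G)`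
  set G1 : ℂ → ℂ := fun z => z * G z with hG1
  set H : ℂ → ℂ := fun z => -1 + z * G1 z with hH
  have hG1d : DifferentiableOn ℂ G1 (ball 0 1) := by fun_prop
  have hHd : DifferentiableOn ℂ H (ball 0 1) := by fun_prop
  have hds : ∀ {c : ℂ} {A : ℂ → ℂ}, DifferentiableOn ℂ A (ball 0 1) →
      dslope (fun z => c + z * A z) 0 = A := by
    intro c A hA
    have hAd : DifferentiableAt ℂ A 0 := hA.differentiableAt (ball_mem_nhds _ one_pos)
    funext z
    rcases eq_or_ne z 0 with rfl | hz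
    · rw [dslope_same]
      have h1 : HasDerivAt (fun z => c + z * A z) (1 * A 0 + 0 * deriv A 0) 0 :=
        ((hasDerivAt_id (0 : ℂ)).mul hAd.hasDerivAt).const_add c
      rw [h1.deriv]
      ring
    · rw [dslope_of_ne _ hz, slope_def_field]
      field_simp
      ring
  have hc0 : co H 0 = -1 := by rw [co_zero, hH]; simp
  have hc1 : co H 1 = 0 := by
    rw [co_succ, hH, hds hG1d, co_zero, hG1]; simp
  have hc2 : ∀ k, co H (k + 2) = co G k := by
    intro k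
    rw [co_succ, hH, hds hG1d, co_succ]
    have h1 : G1 = fun z => 0 + z * G z := by funext z; rw [hG1]; ring
    rw [h1, hds hG]
  have hb := bessel hρ (N + 2) hρ1 hHd
  rw [Finset.sum_range_succ', Finset.sum_range_succ'] at hb
  have hpt : ∀ θ : ℝ, ‖H (circleMap 0 ρ θ)‖ ^ 2 =
      ρ ^ 4 * ‖-((circleMap 0 ρ θ) ^ 2)⁻¹ + G (circleMap 0 ρ θ)‖ ^ 2 := by
    intro θ
    set z := circleMap 0 ρ θ with hz
    have hzn : ‖z‖ = ρ := by rw [hz, norm_circleMap_zero, abs_of_pos hρ]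
    have hz0 : z ≠ 0 := by
      intro h
      rw [h, norm_zero] at hzn
      exact hρ.ne hzn
    have h1 : H z = z ^ 2 * (-(z ^ 2)⁻¹ + G z) := by
      rw [hH, hG1]
      field_simp
    rw [h1, norm_mul, norm_pow, hzn]
    ring
  simp only [hpt] at hb
  rw [intervalIntegral.integral_const_mul] at hb
  have hsum : ∑ k ∈ Finset.range N, ‖co H (k + 1 + 1)‖ ^ 2 * ρ ^ (2 * (k + 1 + 1)) =
      ρ ^ 4 * ∑ k ∈ Finset.range N, ((k + 1) * ‖co e (k + 1)‖) ^ 2 * ρ ^ (2 * k) := by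
    rw [Finset.mul_sum]
    refine Finset.sum_congr rfl fun k _ => ?_
    rw [hc2, hGdef, co_deriv he, norm_mul]
    have : ‖(k : ℂ) + 1‖ = k + 1 := by
      have h2 : ((k : ℂ) + 1) = (((k : ℝ) + 1 : ℝ) : ℂ) := by push_cast; ring
      rw [h2, Complex.norm_of_nonneg (by positivity)]
    rw [this]
    ring
  rw [hsum, hc0, zero_add, hc1] at hb
  have h4 : 0 < ρ ^ 4 := by positivity
  refine le_of_mul_le_mul_left (le_trans (le_of_eq ?_) hb) h4
  have h5 : ρ ^ 4 * (ρ ^ 4)⁻¹ = 1 := mul_inv_cancel₀ h4.ne'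
  simp only [norm_neg, norm_one, norm_zero]
  calc ρ ^ 4 * (2 * Real.pi * ((ρ ^ 4)⁻¹ + ∑ k ∈ Finset.range N, ((k + 1) * ‖co e (k + 1)‖) ^ 2 * ρ ^ (2 * k)))
      = 2 * Real.pi * (ρ ^ 4 * (ρ ^ 4)⁻¹ +
        ρ ^ 4 * ∑ k ∈ Finset.range N, ((k + 1) * ‖co e (k + 1)‖) ^ 2 * ρ ^ (2 * k)) := by ring
    _ = _ := by rw [h5]; ring

/-- The lower bound for the area of the image of an annulus under `1/z + e z`. -/
theorem area_low' {e : ℂ → ℂ} {r s : ℝ} (hr : 0 < r) (hrs : r ≤ s) (hs : s < 1)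
    (he : DifferentiableOn ℂ e (ball 0 1)) (N : ℕ) :
    Real.pi * ((r ^ 2)⁻¹ - (s ^ 2)⁻¹ + ∑ k ∈ Finset.range N,
      (k + 1) * ‖co e (k + 1)‖ ^ 2 * (s ^ (2 * k + 2) - r ^ (2 * k + 2))) ≤
      ∫ z in ann r s, ‖-(z ^ 2)⁻¹ + deriv e z‖ ^ 2 := by
  have hpi := Real.pi_pos
  have hd : DifferentiableOn ℂ (deriv e) (ball 0 1) := he.deriv isOpen_ball
  have hcont : ContinuousOn (fun z : ℂ => ‖-(z ^ 2)⁻¹ + deriv e z‖ ^ 2) {z | r ≤ ‖z‖ ∧ ‖z‖ ≤ s} := by
    refine ContinuousOn.pow (ContinuousOn.norm (ContinuousOn.add (ContinuousOn.neg ?_) ?_)) 2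
    · refine ContinuousOn.inv₀ (continuousOn_id.pow 2) ?_
      intro z hz
      have : z ≠ 0 := by
        intro h
        rw [h] at hz
        have := hz.1
        rw [norm_zero] at this
        linarith
      exact pow_ne_zero 2 this
    · refine hd.continuousOn.mono ?_
      intro z hz
      rw [mem_ball_zero_iff]
      exact lt_of_le_of_lt hz.2 hs
  rw [(integral_ann hr.le hrs hcont).2]
  set L : ℝ → ℝ := fun ρ => 2 * Real.pi * ((ρ ^ 3)⁻¹ + ∑ k ∈ Finset.range N,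
    ((k + 1) * ‖co e (k + 1)‖) ^ 2 * ρ ^ (2 * k + 1)) with hL
  have hlow : ∀ ρ ∈ Icc r s, L ρ ≤ ρ * (∫ θ in (-Real.pi)..Real.pi,
      ‖-((circleMap 0 ρ θ) ^ 2)⁻¹ + deriv e (circleMap 0 ρ θ)‖ ^ 2) := by
    intro ρ hρ
    have hρ0 : 0 < ρ := lt_of_lt_of_le hr hρ.1
    have h1 := circle_low' hρ0 (lt_of_le_of_lt hρ.2 hs) he N
    have h2 := mul_le_mul_of_nonneg_left h1 hρ0.le
    refine le_trans (le_of_eq ?_) h2
    rw [hL]
    have h3 : ∑ k ∈ Finset.range N, ((k + 1) * ‖co e (k + 1)‖) ^ 2 * ρ ^ (2 * k + 1) =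
        ρ * ∑ k ∈ Finset.range N, ((k + 1) * ‖co e (k + 1)‖) ^ 2 * ρ ^ (2 * k) := by
      rw [Finset.mul_sum]
      exact Finset.sum_congr rfl fun k _ => by ring
    have h4 : (ρ ^ 3)⁻¹ = ρ * (ρ ^ 4)⁻¹ := by field_simp
    simp only [h3, h4]
    ring
  have hlc : ContinuousOn L (uIcc r s) := by
    rw [hL]
    refine continuousOn_const.mul (ContinuousOn.add (ContinuousOn.inv₀ (continuousOn_id.pow 3) ?_)
      ?_)
    · intro ρ hρ
      rw [uIcc_of_le hrs] at hρ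
      have : 0 < ρ := lt_of_lt_of_le hr hρ.1
      exact pow_ne_zero 3 this.ne'
    · refine continuousOn_finsetSum _ fun k _ => ?_
      exact continuousOn_const.mul (continuousOn_id.pow _)
  have hmono := intervalIntegral.integral_mono_on hrs hlc.intervalIntegrable
    (integral_ann hr.le hrs hcont).1 hlow
  refine le_trans (le_of_eq ?_) hmono
  have hder : ∀ ρ ∈ uIcc r s, HasDerivAt (fun ρ : ℝ => Real.pi * (-(ρ ^ 2)⁻¹ +
      ∑ k ∈ Finset.range N, ((k + 1) * ‖co e (k + 1)‖ ^ 2) * ρ ^ (2 * k + 2))) (L ρ) ρ := by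
    intro ρ hρ
    rw [uIcc_of_le hrs] at hρ
    have h0 : ρ ≠ 0 := (lt_of_lt_of_le hr hρ.1).ne'
    have h1 : HasDerivAt (fun ρ : ℝ => (ρ ^ 2)⁻¹) (-(2 * ρ) / (ρ ^ 2) ^ 2) ρ := by
      have h2 := (hasDerivAt_pow 2 ρ).fun_inv (pow_ne_zero 2 h0)
      refine h2.congr_deriv ?_
      simp
    have h2 : HasDerivAt (fun ρ : ℝ => ∑ k ∈ Finset.range N,
        ((k + 1) * ‖co e (k + 1)‖ ^ 2) * ρ ^ (2 * k + 2))
        (∑ k ∈ Finset.range N, 2 * (((k + 1) * ‖co e (k + 1)‖) ^ 2 * ρ ^ (2 * k + 1))) ρ := by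
      refine HasDerivAt.fun_sum fun k _ => ?_
      have h3 := (hasDerivAt_pow (2 * k + 2) ρ).const_mul ((k + 1) * ‖co e (k + 1)‖ ^ 2)
      refine h3.congr_deriv ?_
      push_cast
      ring
    have h3 := ((h1.neg).add h2).const_mul Real.pi
    refine h3.congr_deriv ?_
    rw [hL, ← Finset.mul_sum]
    have h4 : -(-(2 * ρ) / (ρ ^ 2) ^ 2) = 2 * (ρ ^ 3)⁻¹ := by field_simp
    rw [h4]
    ring
  rw [intervalIntegral.integral_eq_sub_of_hasDerivAt hder hlc.intervalIntegrable]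
  have h5 : ∑ k ∈ Finset.range N, (k + 1) * ‖co e (k + 1)‖ ^ 2 * (s ^ (2 * k + 2) - r ^ (2 * k + 2)) =
      (∑ k ∈ Finset.range N, (k + 1) * ‖co e (k + 1)‖ ^ 2 * s ^ (2 * k + 2)) -
      ∑ k ∈ Finset.range N, (k + 1) * ‖co e (k + 1)‖ ^ 2 * r ^ (2 * k + 2) := by
    rw [← Finset.sum_sub_distrib]
    exact Finset.sum_congr rfl fun k _ => by ring
  rw [h5]
  ring

end Pool.Agent.Lib.MP_ae5b4e_an_UT
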