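import Pool.Agent.Lib.MP_ae5b4e_an_UT.Sigma

/-!
# MP_ae5b4e_an, univalent toolkit (UT), part 5: Koebe transform and distortion
-/

namespace Pool.Agent.Lib.MP_ae5b4e_an_UT

open Complex MeasureTheory Set Metric Filter Topology

/-- The disc automorphism `z ↦ (z + b) / (1 + conj b * z)`. -/
noncomputable def mb (b z : ℂ) : ℂ := (z + b) / (1 + (starRingEnd ℂ) b * z)

theorem mb_den {b z : ℂ} (hb : ‖b‖ < 1) (hz : ‖z‖ < 1) : 1 + (starRingEnd ℂ) b * z ≠ 0 := by
  intro h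
  have h1 : (starRingEnd ℂ) b * z = -1 := by linear_combination h
  have h2 : ‖(starRingEnd ℂ) b * z‖ = 1 := by rw [h1]; simp
  rw [norm_mul, Complex.norm_conj] at h2
  have := norm_nonneg b
  have := norm_nonneg z
  nlinarith

theorem mb_norm {b z : ℂ} (hb : ‖b‖ < 1) (hz : ‖z‖ < 1) : ‖mb b z‖ < 1 := by
  have hd := mb_den hb hz
  unfold mb
  rw [norm_div, div_lt_one (norm_pos_iff.mpr hd)]
  have hid : ‖1 + (starRingEnd ℂ) b * z‖ ^ 2 - ‖z + b‖ ^ 2 = (1 - ‖z‖ ^ 2) * (1 - ‖b‖ ^ 2) := by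
    rw [← Complex.normSq_eq_norm_sq, ← Complex.normSq_eq_norm_sq, ← Complex.normSq_eq_norm_sq,
      ← Complex.normSq_eq_norm_sq]
    simp only [Complex.normSq_apply, Complex.add_re, Complex.add_im, Complex.mul_re,
      Complex.mul_im, Complex.conj_re, Complex.conj_im, Complex.one_re, Complex.one_im]
    ring
  have hpos : 0 < (1 - ‖z‖ ^ 2) * (1 - ‖b‖ ^ 2) := by
    have h1 : ‖z‖ ^ 2 < 1 := by
      have := norm_nonneg z
      nlinarith
    have h2 : ‖b‖ ^ 2 < 1 := by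
      have := norm_nonneg b
      nlinarith
    exact mul_pos (by linarith) (by linarith)
  have h3 := norm_nonneg (z + b)
  have h4 := norm_nonneg (1 + (starRingEnd ℂ) b * z)
  nlinarith

theorem mb_inj {b z w : ℂ} (hb : ‖b‖ < 1) (hz : ‖z‖ < 1) (hw : ‖w‖ < 1)
    (h : mb b z = mb b w) : z = w := by
  have h1 := mb_den hb hz
  have h2 := mb_den hb hw
  unfold mb at h
  rw [div_eq_div_iff h1 h2] at h
  have h3 : (z - w) * (1 - (starRingEnd ℂ) b * b) = 0 := by linear_combination h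
  rcases mul_eq_zero.mp h3 with h4 | h4
  · exact sub_eq_zero.mp h4
  · have h5 : ‖(-b)‖ < 1 := by rwa [norm_neg]
    have h6 := mb_den hb h5
    exact absurd (by linear_combination h4) h6

theorem mb_hasDerivAt {b z : ℂ} (hb : ‖b‖ < 1) (hz : ‖z‖ < 1) :
    HasDerivAt (mb b) ((1 - (starRingEnd ℂ) b * b) / (1 + (starRingEnd ℂ) b * z) ^ 2) z := by
  have hd := mb_den hb hz
  have h1 : HasDerivAt (fun z : ℂ => z + b) 1 z := (hasDerivAt_id z).add_const b
  have h2 : HasDerivAt (fun z : ℂ => 1 + (starRingEnd ℂ) b * z) ((starRingEnd ℂ) b) z := by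
    have := ((hasDerivAt_id z).const_mul ((starRingEnd ℂ) b)).const_add 1
    simpa using this
  have h3 := h1.div h2 hd
  refine h3.congr_deriv ?_
  congr 1
  ring

theorem mb_zero (b : ℂ) : mb b 0 = b := by simp [mb]

theorem one_sub_conj {b : ℂ} : (1 : ℂ) - (starRingEnd ℂ) b * b = ((1 - ‖b‖ ^ 2 : ℝ) : ℂ) := by
  rw [mul_comm, Complex.mul_conj, Complex.normSq_eq_norm_sq]
  push_cast
  ring

/-- Univalent functions have nonvanishing derivative. -/
theorem deriv_ne {f : ℂ → ℂ} {U : Set ℂ} (hU : IsOpen U) (hf : DifferentiableOn ℂ f U)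
    (hi : InjOn f U) {z : ℂ} (hz : z ∈ U) : deriv f z ≠ 0 :=
  Pool.Agent.Lib.MP_1f4a82_an.deriv_ne_zero_of_injOn (hf.analyticAt (hU.mem_nhds hz))
    (hU.mem_nhds hz) hi

/-- The Koebe transform. -/
theorem koebe_transform {f : ℂ → ℂ} (hf : DifferentiableOn ℂ f (ball 0 1))
    (hi : InjOn f (ball 0 1)) {b : ℂ} (hb : b ∈ ball (0 : ℂ) 1) :
    Sch (fun z => (f (mb b z) - f b) / (((1 - ‖b‖ ^ 2 : ℝ) : ℂ) * deriv f b)) ∧
    co (fun z => (f (mb b z) - f b) / (((1 - ‖b‖ ^ 2 : ℝ) : ℂ) * deriv f b)) 2 =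
      ((((1 - ‖b‖ ^ 2 : ℝ) : ℂ) * (deriv (deriv f) b / deriv f b)) - 2 * (starRingEnd ℂ) b) / 2 := by
  have hb1 : ‖b‖ < 1 := mem_ball_zero_iff.mp hb
  have hfb : deriv f b ≠ 0 := deriv_ne isOpen_ball hf hi hb
  have hb2 : 0 < 1 - ‖b‖ ^ 2 := by nlinarith [norm_nonneg b]
  have hB : (((1 - ‖b‖ ^ 2 : ℝ) : ℂ)) ≠ 0 := by exact_mod_cast hb2.ne'
  set B : ℂ := ((1 - ‖b‖ ^ 2 : ℝ) : ℂ) with hBdef
  set c : ℂ := B * deriv f b with hc
  have hc0 : c ≠ 0 := mul_ne_zero hB hfb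
  have hmap : ∀ z ∈ ball (0 : ℂ) 1, mb b z ∈ ball (0 : ℂ) 1 := fun z hz =>
    mem_ball_zero_iff.mpr (mb_norm hb1 (mem_ball_zero_iff.mp hz))
  set F : ℂ → ℂ := fun z => (f (mb b z) - f b) / c with hF
  have h01 : (0 : ℂ) ∈ ball (0 : ℂ) 1 := mem_ball_self one_pos
  have hFd : ∀ z ∈ ball (0 : ℂ) 1, HasDerivAt F
      (deriv f (mb b z) / (deriv f b * (1 + (starRingEnd ℂ) b * z) ^ 2)) z := by
    intro z hz
    have hz1 : ‖z‖ < 1 := mem_ball_zero_iff.mp hz
    have h1 := mb_hasDerivAt hb1 hz1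
    have h2 : HasDerivAt f (deriv f (mb b z)) (mb b z) :=
      (hf.differentiableAt (isOpen_ball.mem_nhds (hmap z hz))).hasDerivAt
    have h3 := ((h2.comp z h1).sub_const (f b)).div_const c
    refine h3.congr_deriv ?_
    rw [one_sub_conj, ← hBdef, hc]
    have hd := mb_den hb1 hz1
    field_simp
  have hFdiff : DifferentiableOn ℂ F (ball 0 1) :=
    fun z hz => (hFd z hz).differentiableAt.differentiableWithinAt
  constructor
  · refine ⟨hFdiff, ?_, ?_, ?_⟩
    · intro x hx y hy hxy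
      have h1 : (f (mb b x) - f b) / c = (f (mb b y) - f b) / c := hxy
      rw [div_left_inj' hc0] at h1
      have h2 := hi (hmap x hx) (hmap y hy) (sub_left_injective h1)
      exact mb_inj hb1 (mem_ball_zero_iff.mp hx) (mem_ball_zero_iff.mp hy) h2
    · show (f (mb b 0) - f b) / c = 0
      rw [mb_zero, sub_self, zero_div]
    · rw [(hFd 0 h01).deriv, mb_zero]
      simp [hfb]
  · rw [co_eq hFdiff, iteratedDeriv_succ, iteratedDeriv_one]
    have h1 : deriv F =ᶠ[𝓝 0]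
        fun z => deriv f (mb b z) / (deriv f b * (1 + (starRingEnd ℂ) b * z) ^ 2) := by
      filter_upwards [isOpen_ball.mem_nhds h01] with z hz
      exact (hFd z hz).deriv
    rw [h1.deriv_eq]
    have hd0 : ‖(0 : ℂ)‖ < 1 := by simp
    have h2 := mb_hasDerivAt hb1 hd0
    have h3 : HasDerivAt (deriv f) (deriv (deriv f) (mb b 0)) (mb b 0) := by
      have : DifferentiableOn ℂ (deriv f) (ball 0 1) := hf.deriv isOpen_ball
      exact (this.differentiableAt (isOpen_ball.mem_nhds (hmap 0 h01))).hasDerivAt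
    have h4 := h3.comp (0 : ℂ) h2
    have h5 : HasDerivAt (fun z : ℂ => 1 + (starRingEnd ℂ) b * z) ((starRingEnd ℂ) b) 0 := by
      have := ((hasDerivAt_id (0 : ℂ)).const_mul ((starRingEnd ℂ) b)).const_add 1
      simpa using this
    have h6 := (h5.fun_pow 2).const_mul (deriv f b)
    have h7 := h4.div h6 (by simp [hfb])
    have h8 : HasDerivAt (fun z => deriv f (mb b z) / (deriv f b * (1 + (starRingEnd ℂ) b * z) ^ 2))
        _ 0 := h7
    rw [h8.deriv, mb_zero, one_sub_conj, ← hBdef]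
    simp only [Function.comp_apply, mb_zero, mul_zero, add_zero, one_pow, mul_one, div_one,
      Nat.cast_ofNat, Nat.factorial_two]
    field_simp

/-- **The distortion inequality** for the second logarithmic derivative. -/
theorem distortion {f : ℂ → ℂ} (hf : DifferentiableOn ℂ f (ball 0 1))
    (hi : InjOn f (ball 0 1)) {b : ℂ} (hb : b ∈ ball (0 : ℂ) 1) :
    ‖((1 - ‖b‖ ^ 2 : ℝ) : ℂ) * (deriv (deriv f) b / deriv f b) - 2 * (starRingEnd ℂ) b‖ ≤ 4 := by
  obtain ⟨h1, h2⟩ := koebe_transform hf hi hb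
  have h3 := h1.bieberbach
  rw [h2, norm_div] at h3
  have : ‖(2 : ℂ)‖ = 2 := by simp
  rw [this, div_le_iff₀ (by norm_num)] at h3
  linarith

/-- The size of the second logarithmic derivative. -/
theorem distortion' {f : ℂ → ℂ} (hf : DifferentiableOn ℂ f (ball 0 1))
    (hi : InjOn f (ball 0 1)) {b : ℂ} (hb : b ∈ ball (0 : ℂ) 1) :
    ‖deriv (deriv f) b / deriv f b‖ ≤ (4 + 2 * ‖b‖) / (1 - ‖b‖ ^ 2) := by
  have hb1 : ‖b‖ < 1 := mem_ball_zero_iff.mp hb
  have hb2 : 0 < 1 - ‖b‖ ^ 2 := by nlinarith [norm_nonneg b]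
  have h1 := distortion hf hi hb
  have h2 : ‖((1 - ‖b‖ ^ 2 : ℝ) : ℂ) * (deriv (deriv f) b / deriv f b)‖ ≤
      ‖((1 - ‖b‖ ^ 2 : ℝ) : ℂ) * (deriv (deriv f) b / deriv f b) - 2 * (starRingEnd ℂ) b‖ +
        ‖2 * (starRingEnd ℂ) b‖ := by
    have := norm_add_le (((1 - ‖b‖ ^ 2 : ℝ) : ℂ) * (deriv (deriv f) b / deriv f b) -
      2 * (starRingEnd ℂ) b) (2 * (starRingEnd ℂ) b)
    rwa [sub_add_cancel] at this
  rw [norm_mul, Complex.norm_real, Real.norm_of_nonneg hb2.le] at h2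
  have h3 : ‖2 * (starRingEnd ℂ) b‖ = 2 * ‖b‖ := by
    rw [norm_mul, Complex.norm_conj]
    simp
  rw [h3] at h2
  rw [le_div_iff₀ hb2]
  linarith

theorem dist_aux (n u : ℝ) (hp : 0 < 1 + u) (hm : 0 < 1 - u) :
    n / (1 + u) - 3 * (-n / (1 - u)) = n * ((4 + 2 * u) / (1 - u ^ 2)) := by
  have h0 : 1 - u ^ 2 = (1 + u) * (1 - u) := by ring
  have h1 : 0 < 1 - u ^ 2 := by rw [h0]; exact mul_pos hp hm
  rw [← mul_div_assoc n, eq_div_iff h1.ne', sub_mul]
  have e1 : n / (1 + u) * (1 - u ^ 2) = n * (1 - u) := by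
    rw [h0, ← mul_assoc, div_mul_cancel₀ _ hp.ne']
  have e2 : 3 * (-n / (1 - u)) * (1 - u ^ 2) = -(3 * n * (1 + u)) := by
    rw [h0, mul_comm (1 + u) (1 - u), mul_assoc, ← mul_assoc (-n / (1 - u)),
      div_mul_cancel₀ _ hm.ne']
    ring
  rw [e1, e2]
  ring

/-- The bound of `log f'`: there is a holomorphic logarithm of `f' z / f' 0` with
`|log| ≤ log (1 + |z|) - 3 log (1 - |z|)`. -/
theorem log_deriv_bound {f : ℂ → ℂ} (hf : DifferentiableOn ℂ f (ball 0 1))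
    (hi : InjOn f (ball 0 1)) :
    ∃ g : ℂ → ℂ, DifferentiableOn ℂ g (ball 0 1) ∧ g 0 = 0 ∧
      (∀ z ∈ ball (0 : ℂ) 1, deriv f z = deriv f 0 * Complex.exp (g z)) ∧
      (∀ z ∈ ball (0 : ℂ) 1, HasDerivAt g (deriv (deriv f) z / deriv f z) z) ∧
      ∀ z ∈ ball (0 : ℂ) 1, ‖g z‖ ≤ Real.log (1 + ‖z‖) - 3 * Real.log (1 - ‖z‖) := by
  have h01 : (0 : ℂ) ∈ ball (0 : ℂ) 1 := mem_ball_self one_pos
  have hne : ∀ z ∈ ball (0 : ℂ) 1, deriv f z ≠ 0 := fun z hz => deriv_ne isOpen_ball hf hi hz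
  have hd : DifferentiableOn ℂ (deriv f) (ball 0 1) := hf.deriv isOpen_ball
  obtain ⟨G, hG, hGe, hGd, hG0⟩ := exists_log_ball one_pos hd hne
  refine ⟨fun z => G z - G 0, hG.sub_const _, sub_self _, ?_, ?_, ?_⟩
  · intro z hz
    rw [Complex.exp_sub, hGe z hz, hGe 0 h01]
    have := hne 0 h01
    field_simp
  · intro z hz
    exact (hGd z hz).sub_const _
  · intro z hz
    have hz1 : ‖z‖ < 1 := mem_ball_zero_iff.mp hz
    -- along the ray
    set φ : ℝ → ℂ := fun t => G (t * z) with hφ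
    have hmem : ∀ t ∈ Icc (0 : ℝ) 1, (t : ℂ) * z ∈ ball (0 : ℂ) 1 := by
      intro t ht
      rw [mem_ball_zero_iff, norm_mul, Complex.norm_real, Real.norm_of_nonneg ht.1]
      nlinarith [norm_nonneg z, ht.2]
    have hφd : ∀ t ∈ Icc (0 : ℝ) 1, HasDerivAt φ
        (deriv (deriv f) (t * z) / deriv f (t * z) * z) t := by
      intro t ht
      have h1 := hGd _ (hmem t ht)
      have h2 : HasDerivAt (fun s : ℝ => (s : ℂ) * z) z t := by
        have h3 : HasDerivAt (fun s : ℂ => s * z) z (t : ℂ) := by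
          simpa using (hasDerivAt_id (t : ℂ)).mul_const z
        exact h3.comp_ofReal
      exact h1.comp t h2
    set B : ℝ → ℝ := fun t => Real.log (1 + t * ‖z‖) - 3 * Real.log (1 - t * ‖z‖) with hB
    have hBd : ∀ t ∈ Icc (0 : ℝ) 1, HasDerivAt B
        (‖z‖ * ((4 + 2 * (t * ‖z‖)) / (1 - (t * ‖z‖) ^ 2))) t := by
      intro t ht
      have hp : 0 < 1 + t * ‖z‖ := by nlinarith [norm_nonneg z, ht.1]
      have hm : 0 < 1 - t * ‖z‖ := by nlinarith [norm_nonneg z, ht.2]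
      have a1 : HasDerivAt (fun t : ℝ => 1 + t * ‖z‖) ‖z‖ t := by
        have := ((hasDerivAt_id t).mul_const ‖z‖).const_add 1
        simpa using this
      have a2 : HasDerivAt (fun t : ℝ => 1 - t * ‖z‖) (-‖z‖) t := by
        have := ((hasDerivAt_id t).mul_const ‖z‖).const_sub 1
        simpa using this
      have a3 := (a1.log hp.ne').sub ((a2.log hm.ne').const_mul 3)
      refine a3.congr_deriv ?_
      exact dist_aux ‖z‖ (t * ‖z‖) hp hm
    have hcmp := image_norm_le_of_norm_deriv_right_le_deriv_boundary'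
      (f := fun t => φ t - φ 0) (a := 0) (b := 1) (B := B)
      (f' := fun t => deriv (deriv f) (t * z) / deriv f (t * z) * z)
      (B' := fun t => ‖z‖ * ((4 + 2 * (t * ‖z‖)) / (1 - (t * ‖z‖) ^ 2)))
      (fun t ht => ((hφd t ht).continuousAt.continuousWithinAt).sub continuousWithinAt_const)
      (fun t ht => ((hφd t (Ico_subset_Icc_self ht)).sub_const _).hasDerivWithinAt)
      (by simp [hB])
      (fun t ht => (hBd t ht).continuousAt.continuousWithinAt)
      (fun t ht => (hBd t (Ico_subset_Icc_self ht)).hasDerivWithinAt)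
      (by
        intro t ht
        have h1 := distortion' hf hi (hmem t (Ico_subset_Icc_self ht))
        have h2 : ‖(t : ℂ) * z‖ = t * ‖z‖ := by
          rw [norm_mul, Complex.norm_real, Real.norm_of_nonneg ht.1]
        rw [h2] at h1
        rw [norm_mul, mul_comm]
        exact mul_le_mul_of_nonneg_left h1 (norm_nonneg z))
      (right_mem_Icc.mpr zero_le_one)
    have e1 : φ 1 - φ 0 = G z - G 0 := by simp [hφ]
    have e2 : B 1 = Real.log (1 + ‖z‖) - 3 * Real.log (1 - ‖z‖) := by simp [hB]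
    rw [e1, e2] at hcmp
    exact hcmp

end Pool.Agent.Lib.MP_ae5b4e_an_UT
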