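import Pool.Agent.Lib.MP_ae5b4e_an_UT.Dist

/-!
# MP_ae5b4e_an, univalent toolkit (UT), part 6: growth and distortion in any disc
-/

namespace Pool.Agent.Lib.MP_ae5b4e_an_UT

open Complex MeasureTheory Set Metric Filter Topology

theorem dist_aux2 (n u : ℝ) (hp : 0 < 1 + u) (hm : 0 < 1 - u) :
    -n / (1 - u) - 3 * (n / (1 + u)) = n * ((2 * u - 4) / (1 - u ^ 2)) := by
  have h0 : 1 - u ^ 2 = (1 + u) * (1 - u) := by ring
  have h1 : 0 < 1 - u ^ 2 := by rw [h0]; exact mul_pos hp hm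
  rw [← mul_div_assoc n, eq_div_iff h1.ne', sub_mul]
  have e1 : 3 * (n / (1 + u)) * (1 - u ^ 2) = 3 * n * (1 - u) := by
    rw [h0, mul_assoc, ← mul_assoc (n / (1 + u)), div_mul_cancel₀ _ hp.ne']
    ring
  have e2 : -n / (1 - u) * (1 - u ^ 2) = -n * (1 + u) := by
    rw [h0, mul_comm (1 + u) (1 - u), ← mul_assoc, div_mul_cancel₀ _ hm.ne']
  rw [e1, e2]
  ring

/-- **The distortion theorem**, lower bound (sharp). -/
theorem deriv_low {f : ℂ → ℂ} (hf : DifferentiableOn ℂ f (ball 0 1))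
    (hi : InjOn f (ball 0 1)) {z : ℂ} (hz : z ∈ ball (0 : ℂ) 1) :
    ‖deriv f 0‖ * ((1 - ‖z‖) / (1 + ‖z‖) ^ 3) ≤ ‖deriv f z‖ := by
  have h01 : (0 : ℂ) ∈ ball (0 : ℂ) 1 := mem_ball_self one_pos
  obtain ⟨G, hG, hG0, hGe, hGd, _⟩ := log_deriv_bound hf hi
  have hz1 : ‖z‖ < 1 := mem_ball_zero_iff.mp hz
  have hzn : 0 ≤ ‖z‖ := norm_nonneg z
  have hmem : ∀ t ∈ Icc (0 : ℝ) 1, (t : ℂ) * z ∈ ball (0 : ℂ) 1 := by
    intro t ht
    rw [mem_ball_zero_iff, norm_mul, Complex.norm_real, Real.norm_of_nonneg ht.1]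
    nlinarith [norm_nonneg z, ht.2]
  set φ : ℝ → ℝ := fun t => (G (t * z)).re with hφ
  have hφd : ∀ t ∈ Icc (0 : ℝ) 1, HasDerivAt φ
      (deriv (deriv f) (t * z) / deriv f (t * z) * z).re t := by
    intro t ht
    have h1 := hGd _ (hmem t ht)
    have h2 : HasDerivAt (fun s : ℝ => (s : ℂ) * z) z t := by
      have h3 : HasDerivAt (fun s : ℂ => s * z) z (t : ℂ) := by
        simpa using (hasDerivAt_id (t : ℂ)).mul_const z
      exact h3.comp_ofReal
    have h3 : HasDerivAt (fun t : ℝ => G (t * z))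
      (deriv (deriv f) (t * z) / deriv f (t * z) * z) t := h1.comp t h2
    exact (hasDerivAt_re' h3)
  set B : ℝ → ℝ := fun t => Real.log (1 - t * ‖z‖) - 3 * Real.log (1 + t * ‖z‖) with hB
  have hBd : ∀ t ∈ Icc (0 : ℝ) 1, HasDerivAt B
      (‖z‖ * ((2 * (t * ‖z‖) - 4) / (1 - (t * ‖z‖) ^ 2))) t := by
    intro t ht
    have hp : 0 < 1 + t * ‖z‖ := by nlinarith [norm_nonneg z, ht.1]
    have hm : 0 < 1 - t * ‖z‖ := by nlinarith [norm_nonneg z, ht.2]
    have a1 : HasDerivAt (fun t : ℝ => 1 + t * ‖z‖) ‖z‖ t := by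
      have := ((hasDerivAt_id t).mul_const ‖z‖).const_add 1
      simpa using this
    have a2 : HasDerivAt (fun t : ℝ => 1 - t * ‖z‖) (-‖z‖) t := by
      have := ((hasDerivAt_id t).mul_const ‖z‖).const_sub 1
      simpa using this
    have a3 := (a2.log hm.ne').sub ((a1.log hp.ne').const_mul 3)
    refine a3.congr_deriv ?_
    exact dist_aux2 ‖z‖ (t * ‖z‖) hp hm
  have hle : ∀ t ∈ Icc (0 : ℝ) 1, ‖z‖ * ((2 * (t * ‖z‖) - 4) / (1 - (t * ‖z‖) ^ 2)) ≤
      (deriv (deriv f) (t * z) / deriv f (t * z) * z).re := by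
    intro t ht
    have h1 := distortion hf hi (hmem t ht)
    have h2 : ‖(t : ℂ) * z‖ = t * ‖z‖ := by
      rw [norm_mul, Complex.norm_real, Real.norm_of_nonneg ht.1]
    rw [h2] at h1
    set q := deriv (deriv f) (t * z) / deriv f (t * z) with hq
    set b : ℝ := 1 - (t * ‖z‖) ^ 2 with hb
    have hb0 : 0 < b := by
      have h3 : 0 ≤ t * ‖z‖ := mul_nonneg ht.1 hzn
      have h4 : t * ‖z‖ < 1 := by nlinarith [ht.2]
      rw [hb]; nlinarith
    have h3 : ‖((b : ℂ) * q - 2 * (starRingEnd ℂ) ((t : ℂ) * z)) * z‖ ≤ 4 * ‖z‖ := by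
      rw [norm_mul]
      exact mul_le_mul_of_nonneg_right h1 hzn
    have h4 : ((b : ℂ) * q - 2 * (starRingEnd ℂ) ((t : ℂ) * z)) * z =
        (b : ℂ) * (q * z) - ((2 * t * ‖z‖ ^ 2 : ℝ) : ℂ) := by
      have h5 : (starRingEnd ℂ) z * z = ((‖z‖ ^ 2 : ℝ) : ℂ) := by
        rw [mul_comm, Complex.mul_conj, Complex.normSq_eq_norm_sq]
      rw [map_mul, Complex.conj_ofReal]
      push_cast
      push_cast at h5
      linear_combination (-2 * (t : ℂ)) * h5
    rw [h4] at h3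
    have h5 := (abs_le.mp (le_trans (Complex.abs_re_le_norm _) h3)).1
    rw [Complex.sub_re, Complex.re_ofReal_mul, Complex.ofReal_re] at h5
    rw [← mul_div_assoc, div_le_iff₀ hb0]
    nlinarith
  have hmono : MonotoneOn (fun t => φ t - B t) (Icc 0 1) := by
    refine monotoneOn_of_deriv_nonneg (convex_Icc 0 1) ?_ ?_ ?_
    · intro t ht
      exact ((hφd t ht).sub (hBd t ht)).continuousAt.continuousWithinAt
    · intro t ht
      rw [interior_Icc] at ht
      exact ((hφd t (Ioo_subset_Icc_self ht)).sub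
        (hBd t (Ioo_subset_Icc_self ht))).differentiableAt.differentiableWithinAt
    · intro t ht
      rw [interior_Icc] at ht
      have ht' := Ioo_subset_Icc_self ht
      have := ((hφd t ht').sub (hBd t ht')).deriv
      have h2 : deriv (fun t => φ t - B t) t = _ := this
      rw [h2]
      have := hle t ht'
      linarith
  have h1 := hmono (left_mem_Icc.mpr zero_le_one) (right_mem_Icc.mpr zero_le_one) zero_le_one
  have e0 : φ 0 = 0 := by simp [hφ, hG0]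
  have e1 : φ 1 = (G z).re := by simp [hφ]
  have e2 : B 0 = 0 := by simp [hB]
  have e3 : B 1 = Real.log (1 - ‖z‖) - 3 * Real.log (1 + ‖z‖) := by simp [hB]
  simp only [e0, e1, e2, e3] at h1
  have h2 : Real.log ((1 - ‖z‖) / (1 + ‖z‖) ^ 3) ≤ (G z).re := by
    rw [Real.log_div (by linarith) (by positivity), Real.log_pow]
    push_cast
    linarith
  rw [hGe z hz, norm_mul, Complex.norm_exp]
  refine mul_le_mul_of_nonneg_left ?_ (norm_nonneg _)
  have h3 := Real.exp_le_exp.mpr h2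
  rwa [Real.exp_log (div_pos (by linarith) (by positivity))] at h3
where
  hasDerivAt_re' {φ : ℝ → ℂ} {d : ℂ} {t : ℝ} (h : HasDerivAt φ d t) :
      HasDerivAt (fun t => (φ t).re) d.re t := by
    exact (Complex.reCLM.hasFDerivAt (x := φ t)).comp_hasDerivAt t h

/-- **The distortion theorem**, upper bound. -/
theorem deriv_up {f : ℂ → ℂ} (hf : DifferentiableOn ℂ f (ball 0 1))
    (hi : InjOn f (ball 0 1)) {z : ℂ} (hz : z ∈ ball (0 : ℂ) 1) :
    ‖deriv f z‖ ≤ ‖deriv f 0‖ * ((1 + ‖z‖) / (1 - ‖z‖) ^ 3) := by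
  obtain ⟨G, hG, hG0, hGe, hGd, hGb⟩ := log_deriv_bound hf hi
  have hz1 : ‖z‖ < 1 := mem_ball_zero_iff.mp hz
  have hzn : 0 ≤ ‖z‖ := norm_nonneg z
  have hm : 0 < 1 - ‖z‖ := by linarith
  rw [hGe z hz, norm_mul, Complex.norm_exp]
  refine mul_le_mul_of_nonneg_left ?_ (norm_nonneg _)
  have h1 : (G z).re ≤ Real.log ((1 + ‖z‖) / (1 - ‖z‖) ^ 3) := by
    rw [Real.log_div (by positivity) (by positivity), Real.log_pow]
    push_cast
    exact le_trans (le_trans (le_abs_self _) (Complex.abs_re_le_norm _)) (hGb z hz)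
  have h3 := Real.exp_le_exp.mpr h1
  rwa [Real.exp_log (div_pos (by linarith) (by positivity))] at h3

/-- **The growth theorem**, upper bound. -/
theorem growth_up {f : ℂ → ℂ} (hf : DifferentiableOn ℂ f (ball 0 1))
    (hi : InjOn f (ball 0 1)) {z : ℂ} (hz : z ∈ ball (0 : ℂ) 1) :
    ‖f z - f 0‖ ≤ ‖deriv f 0‖ * (‖z‖ / (1 - ‖z‖) ^ 2) := by
  have hz1 : ‖z‖ < 1 := mem_ball_zero_iff.mp hz
  have hzn : 0 ≤ ‖z‖ := norm_nonneg z
  have hmem : ∀ t ∈ Icc (0 : ℝ) 1, (t : ℂ) * z ∈ ball (0 : ℂ) 1 := by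
    intro t ht
    rw [mem_ball_zero_iff, norm_mul, Complex.norm_real, Real.norm_of_nonneg ht.1]
    nlinarith [norm_nonneg z, ht.2]
  set φ : ℝ → ℂ := fun t => f (t * z) with hφ
  have hφd : ∀ t ∈ Icc (0 : ℝ) 1, HasDerivAt φ (deriv f (t * z) * z) t := by
    intro t ht
    have h1 : HasDerivAt f (deriv f (t * z)) (t * z) :=
      (hf.differentiableAt (isOpen_ball.mem_nhds (hmem t ht))).hasDerivAt
    have h2 : HasDerivAt (fun s : ℝ => (s : ℂ) * z) z t := by
      have h3 : HasDerivAt (fun s : ℂ => s * z) z (t : ℂ) := by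
        simpa using (hasDerivAt_id (t : ℂ)).mul_const z
      exact h3.comp_ofReal
    exact h1.comp t h2
  set B : ℝ → ℝ := fun t => ‖deriv f 0‖ * (t * ‖z‖ / (1 - t * ‖z‖) ^ 2) with hB
  have hBd : ∀ t ∈ Icc (0 : ℝ) 1, HasDerivAt B
      (‖deriv f 0‖ * ((1 + t * ‖z‖) / (1 - t * ‖z‖) ^ 3) * ‖z‖) t := by
    intro t ht
    have hm : 0 < 1 - t * ‖z‖ := by nlinarith [norm_nonneg z, ht.2]
    have a1 : HasDerivAt (fun t : ℝ => t * ‖z‖) ‖z‖ t := by
      simpa using (hasDerivAt_id t).mul_const ‖z‖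
    have a2 : HasDerivAt (fun t : ℝ => 1 - t * ‖z‖) (-‖z‖) t := by
      simpa using a1.const_sub 1
    have a3 := ((a1.div (a2.fun_pow 2) (pow_ne_zero 2 hm.ne')).const_mul ‖deriv f 0‖)
    refine a3.congr_deriv ?_
    exact growth_aux hm.ne'
  have hcmp := image_norm_le_of_norm_deriv_right_le_deriv_boundary'
    (f := fun t => φ t - φ 0) (a := 0) (b := 1) (B := B)
    (f' := fun t => deriv f (t * z) * z)
    (B' := fun t => ‖deriv f 0‖ * ((1 + t * ‖z‖) / (1 - t * ‖z‖) ^ 3) * ‖z‖)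
    (fun t ht => ((hφd t ht).continuousAt.continuousWithinAt).sub continuousWithinAt_const)
    (fun t ht => ((hφd t (Ico_subset_Icc_self ht)).sub_const _).hasDerivWithinAt)
    (by simp [hB])
    (fun t ht => (hBd t ht).continuousAt.continuousWithinAt)
    (fun t ht => (hBd t (Ico_subset_Icc_self ht)).hasDerivWithinAt)
    (by
      intro t ht
      have h1 := deriv_up hf hi (hmem t (Ico_subset_Icc_self ht))
      have h2 : ‖(t : ℂ) * z‖ = t * ‖z‖ := by
        rw [norm_mul, Complex.norm_real, Real.norm_of_nonneg ht.1]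
      rw [h2] at h1
      rw [norm_mul]
      exact mul_le_mul_of_nonneg_right h1 (norm_nonneg z))
    (right_mem_Icc.mpr zero_le_one)
  have e1 : φ 1 - φ 0 = f z - f 0 := by simp [hφ]
  have e2 : B 1 = ‖deriv f 0‖ * (‖z‖ / (1 - ‖z‖) ^ 2) := by simp [hB]
  rw [e1, e2] at hcmp
  exact hcmp
where
  growth_aux {n u d : ℝ} (hm : 1 - u ≠ 0) :
      d * ((n * (1 - u) ^ 2 - u * (((2 : ℕ) : ℝ) * (1 - u) ^ (2 - 1) * -n)) / ((1 - u) ^ 2) ^ 2) =
        d * ((1 + u) / (1 - u) ^ 3) * n := by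
    have h1 : ((2 : ℕ) : ℝ) * (1 - u) ^ (2 - 1) * -n = -(2 * n * (1 - u)) := by
      norm_num
      ring
    rw [h1]
    generalize hM : 1 - u = M at *
    have hu : u = 1 - M := by linarith
    subst hu
    field_simp
    ring

end Pool.Agent.Lib.MP_ae5b4e_an_UT
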