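import Mathlib

/-!
# MP_ae5b4e_an, univalent toolkit (UT), part 1

The integral of a continuous function over an annulus in polar coordinates, and the lower bound of
the Dirichlet integral by two Laurent coefficients.
-/

namespace Pool.Agent.Lib.MP_ae5b4e_an_UT

open Complex MeasureTheory Set Metric Filter Topology

/-- The open annulus centred at zero. -/
def ann (r s : ℝ) : Set ℂ := {z | r < ‖z‖ ∧ ‖z‖ < s}

theorem isOpen_ann (r s : ℝ) : IsOpen (ann r s) :=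
  (isOpen_lt continuous_const continuous_norm).inter (isOpen_lt continuous_norm continuous_const)

/-- Polar coordinates on an annulus. -/
theorem integral_ann {r s : ℝ} (hr : 0 ≤ r) (hrs : r ≤ s) {F : ℂ → ℝ}
    (hF : ContinuousOn F {z | r ≤ ‖z‖ ∧ ‖z‖ ≤ s}) :
    IntervalIntegrable (fun ρ => ρ * (∫ θ in (-Real.pi)..Real.pi, F (circleMap 0 ρ θ))) volume r s ∧
    ∫ z in ann r s, F z = ∫ ρ in r..s, ρ * (∫ θ in (-Real.pi)..Real.pi, F (circleMap 0 ρ θ)) := by
  have hpi := Real.pi_pos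
  have hcont : ContinuousOn (fun p : ℝ × ℝ => p.1 * F (circleMap 0 p.1 p.2))
      (Set.Icc r s ×ˢ Set.Icc (-Real.pi) Real.pi) := by
    refine continuousOn_fst.mul (hF.comp ?_ ?_)
    · have : Continuous (fun p : ℝ × ℝ => circleMap 0 p.1 p.2) := by
        unfold circleMap; fun_prop
      exact this.continuousOn
    · intro p hp
      have h0 : 0 ≤ p.1 := le_trans hr hp.1.1
      show r ≤ ‖circleMap 0 p.1 p.2‖ ∧ ‖circleMap 0 p.1 p.2‖ ≤ s
      rw [norm_circleMap_zero, abs_of_nonneg h0]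
      exact hp.1
  have hint : IntegrableOn (fun p : ℝ × ℝ => p.1 * F (circleMap 0 p.1 p.2))
      (Set.Ioo r s ×ˢ Set.Ioo (-Real.pi) Real.pi) (volume.prod volume) := by
    rw [← Measure.volume_eq_prod]
    exact (hcont.integrableOn_compact (isCompact_Icc.prod isCompact_Icc)).mono_set
      (Set.prod_mono Ioo_subset_Icc_self Ioo_subset_Icc_self)
  have hin : ∀ ρ : ℝ, ∫ y in Set.Ioo (-Real.pi) Real.pi, ρ * F (circleMap 0 ρ y) =
      ρ * (∫ θ in (-Real.pi)..Real.pi, F (circleMap 0 ρ θ)) := by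
    intro ρ
    rw [integral_const_mul, intervalIntegral.integral_of_le (by linarith),
      integral_Ioc_eq_integral_Ioo]
  constructor
  · rw [intervalIntegrable_iff_integrableOn_Ioo_of_le hrs]
    have h1 : Integrable (fun p : ℝ × ℝ => p.1 * F (circleMap 0 p.1 p.2))
        ((volume.restrict (Set.Ioo r s)).prod (volume.restrict (Set.Ioo (-Real.pi) Real.pi))) := by
      rw [Measure.prod_restrict]; exact hint
    have h2 := h1.integral_prod_left
    refine h2.congr (Filter.Eventually.of_forall fun ρ => ?_)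
    exact hin ρ
  rw [← integral_indicator (isOpen_ann r s).measurableSet, ← Complex.integral_comp_polarCoord_symm]
  have hset : polarCoord.target = Set.Ioi (0 : ℝ) ×ˢ Set.Ioo (-Real.pi) Real.pi := rfl
  have hsymm : ∀ p : ℝ × ℝ, Complex.polarCoord.symm p = circleMap 0 p.1 p.2 := by
    intro p
    rw [Complex.polarCoord_symm_apply, circleMap_zero, Complex.exp_mul_I, Complex.ofReal_cos,
      Complex.ofReal_sin]
  have hms : MeasurableSet (Set.Ioo r s ×ˢ (univ : Set ℝ)) := measurableSet_Ioo.prod MeasurableSet.univ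
  have h1 : ∀ p ∈ polarCoord.target, p.1 • (ann r s).indicator F (Complex.polarCoord.symm p) =
      (Set.Ioo r s ×ˢ (univ : Set ℝ)).indicator (fun p : ℝ × ℝ => p.1 * F (circleMap 0 p.1 p.2)) p := by
    intro p hp
    have hp1 : 0 < p.1 := hp.1
    have hn : ‖circleMap 0 p.1 p.2‖ = p.1 := by
      rw [norm_circleMap_zero, abs_of_pos hp1]
    rw [hsymm]
    by_cases h : r < p.1 ∧ p.1 < s
    · rw [Set.indicator_of_mem (show circleMap 0 p.1 p.2 ∈ ann r s by
        show r < _ ∧ _ < s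
        rw [hn]; exact h), Set.indicator_of_mem (show p ∈ Set.Ioo r s ×ˢ (univ : Set ℝ) from
        ⟨h, mem_univ _⟩)]
      rfl
    · rw [Set.indicator_of_notMem (show circleMap 0 p.1 p.2 ∉ ann r s by
        show ¬ (r < _ ∧ _ < s)
        rw [hn]; exact h), Set.indicator_of_notMem (show p ∉ Set.Ioo r s ×ˢ (univ : Set ℝ) from
        fun hh => h hh.1), smul_zero]
  rw [setIntegral_congr_fun polarCoord.open_target.measurableSet h1, setIntegral_indicator hms, hset]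
  have h2 : (Set.Ioi (0 : ℝ) ×ˢ Set.Ioo (-Real.pi) Real.pi) ∩ (Set.Ioo r s ×ˢ (univ : Set ℝ)) =
      Set.Ioo r s ×ˢ Set.Ioo (-Real.pi) Real.pi := by
    ext p
    simp only [mem_inter_iff, mem_prod, mem_Ioi, mem_Ioo, mem_univ, and_true]
    constructor
    · rintro ⟨⟨_, h1⟩, h2⟩; exact ⟨h2, h1⟩
    · rintro ⟨h1, h2⟩; exact ⟨⟨lt_of_le_of_lt hr h1.1, h2⟩, h1⟩
  rw [h2, Measure.volume_eq_prod]
  rw [setIntegral_prod _ hint, intervalIntegral.integral_of_le hrs, integral_Ioc_eq_integral_Ioo]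
  refine setIntegral_congr_fun measurableSet_Ioo ?_
  intro ρ _
  exact hin ρ

/-- The mean value property on the interval `(-π, π)`. -/
theorem integral_circle_eq {h : ℂ → ℂ} {ρ : ℝ} (hρ : 0 < ρ) (hh : DiffContOnCl ℂ h (ball 0 ρ)) :
    ∫ θ in (-Real.pi)..Real.pi, (h (circleMap 0 ρ θ)).re = 2 * Real.pi * (h 0).re := by
  have hpi := Real.pi_pos
  have hcont : Continuous (fun θ : ℝ => h (circleMap 0 ρ θ)) := by
    refine continuousOn_univ.mp (hh.continuousOn.comp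
      (continuous_circleMap 0 ρ).continuousOn ?_)
    intro θ _
    rw [closure_ball _ hρ.ne']
    exact circleMap_mem_closedBall 0 hρ.le θ
  have h1 : ∫ θ in (-Real.pi)..Real.pi, h (circleMap 0 ρ θ) = 2 * Real.pi * h 0 := by
    have hper : Function.Periodic (fun θ : ℝ => h (circleMap 0 ρ θ)) (2 * Real.pi) := by
      intro θ
      show h (circleMap 0 ρ (θ + 2 * Real.pi)) = h (circleMap 0 ρ θ)
      rw [periodic_circleMap 0 ρ θ]
    have h2 := hper.intervalIntegral_add_eq (-Real.pi) 0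
    rw [show -Real.pi + 2 * Real.pi = Real.pi by ring, zero_add] at h2
    rw [h2]
    have h3 : Real.circleAverage h 0 ρ = h 0 := by
      have := DiffContOnCl.circleAverage (f := h) (c := 0) (R := ρ) (by rwa [abs_of_pos hρ])
      exact this
    rw [Real.circleAverage_def] at h3
    rw [← h3, Complex.real_smul]
    push_cast
    have : (Real.pi : ℂ) ≠ 0 := by exact_mod_cast hpi.ne'
    field_simp
  have h4 : ∫ θ in (-Real.pi)..Real.pi, (h (circleMap 0 ρ θ)).re =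
      (∫ θ in (-Real.pi)..Real.pi, h (circleMap 0 ρ θ)).re :=
    (intervalIntegral_re' hcont)
  rw [h4, h1]
  rw [show (2 * (Real.pi : ℂ) * h 0) = ((2 * Real.pi : ℝ) : ℂ) * h 0 by push_cast; ring,
    Complex.re_ofReal_mul]
where
  intervalIntegral_re' {f : ℝ → ℂ} (hf : Continuous f) : ∫ θ in (-Real.pi)..Real.pi, (f θ).re =
      (∫ θ in (-Real.pi)..Real.pi, f θ).re := by
    have hi : IntervalIntegrable f volume (-Real.pi) Real.pi := hf.intervalIntegrable _ _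
    have := Complex.reCLM.intervalIntegral_comp_comm hi
    simpa using this

/-- The lower bound on a circle. -/
theorem circle_low {g : ℂ → ℂ} {b : ℂ} {ρ : ℝ} (hρ : 0 < ρ) (hg : DiffContOnCl ℂ g (ball 0 ρ))
    (hg0 : g 0 = 0) :
    2 * Real.pi * ((ρ ^ 4)⁻¹ + ‖b‖ ^ 2) ≤
      ∫ θ in (-Real.pi)..Real.pi, ‖-((circleMap 0 ρ θ) ^ 2)⁻¹ + b + g (circleMap 0 ρ θ)‖ ^ 2 := by
  have hpi := Real.pi_pos
  set h : ℂ → ℂ := fun z => -2 * ((ρ ^ 4 : ℝ) : ℂ)⁻¹ * z ^ 2 * b +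
    2 * g z * ((starRingEnd ℂ) b - ((ρ ^ 4 : ℝ) : ℂ)⁻¹ * z ^ 2) with hh
  have hhd : DiffContOnCl ℂ h (ball 0 ρ) := by
    have hz : DiffContOnCl ℂ (fun z : ℂ => z ^ 2) (ball 0 ρ) :=
      (differentiable_id.pow 2).diffContOnCl
    have e1 : h = fun z => (-2 * ((ρ ^ 4 : ℝ) : ℂ)⁻¹ * b) • (z ^ 2) +
      (g z) • ((2 * (starRingEnd ℂ) b) - (2 * ((ρ ^ 4 : ℝ) : ℂ)⁻¹) * z ^ 2) := by
      funext z; rw [hh]; simp only [smul_eq_mul]; ring
    rw [e1]
    have hc : DiffContOnCl ℂ (fun _ : ℂ => (-2 * ((ρ ^ 4 : ℝ) : ℂ)⁻¹ * b)) (ball 0 ρ) :=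
      diffContOnCl_const
    refine (hc.smul hz).add (hg.smul ?_)
    have : Differentiable ℂ (fun z : ℂ => (2 * (starRingEnd ℂ) b) - (2 * ((ρ ^ 4 : ℝ) : ℂ)⁻¹) * z ^ 2) := by
      fun_prop
    exact this.diffContOnCl
  have h0 : h 0 = 0 := by rw [hh]; simp [hg0]
  have hmv := integral_circle_eq hρ hhd
  rw [h0, Complex.zero_re, mul_zero] at hmv
  have hccl : ∀ θ : ℝ, circleMap 0 ρ θ ∈ closure (ball (0 : ℂ) ρ) := by
    intro θ
    rw [closure_ball _ hρ.ne']
    exact circleMap_mem_closedBall 0 hρ.le θ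
  have hcg : Continuous (fun θ : ℝ => g (circleMap 0 ρ θ)) :=
    continuousOn_univ.mp (hg.continuousOn.comp
      (continuous_circleMap 0 ρ).continuousOn (fun θ _ => hccl θ))
  have hch : Continuous (fun θ : ℝ => h (circleMap 0 ρ θ)) :=
    continuousOn_univ.mp (hhd.continuousOn.comp
      (continuous_circleMap 0 ρ).continuousOn (fun θ _ => hccl θ))
  have hne : ∀ θ : ℝ, circleMap 0 ρ θ ≠ 0 := fun θ => by
    intro h
    have := norm_circleMap_zero ρ θ
    rw [h, norm_zero, abs_of_pos hρ] at this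
    exact hρ.ne this
  have hpt : ∀ θ : ℝ, ((ρ ^ 4)⁻¹ + ‖b‖ ^ 2) + (h (circleMap 0 ρ θ)).re ≤
      ‖-((circleMap 0 ρ θ) ^ 2)⁻¹ + b + g (circleMap 0 ρ θ)‖ ^ 2 := by
    intro θ
    set z := circleMap 0 ρ θ with hz
    have hzn : ‖z‖ = ρ := by rw [hz, norm_circleMap_zero, abs_of_pos hρ]
    have hz0 : z ≠ 0 := hne θ
    -- the conjugate of `z⁻²`
    have hconj : (starRingEnd ℂ) ((z ^ 2)⁻¹) = ((ρ ^ 4 : ℝ) : ℂ)⁻¹ * z ^ 2 := by
      have h1 : z * (starRingEnd ℂ) z = ((ρ ^ 2 : ℝ) : ℂ) := by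
        rw [Complex.mul_conj, Complex.normSq_eq_norm_sq, hzn]
      have h2 : (starRingEnd ℂ) z ≠ 0 := (map_ne_zero _).mpr hz0
      rw [map_inv₀, map_pow]
      have h3 : ((ρ ^ 4 : ℝ) : ℂ) = (z * (starRingEnd ℂ) z) ^ 2 := by
        rw [h1]; push_cast; ring
      rw [h3]
      field_simp
    set w : ℂ := (z ^ 2)⁻¹ with hw
    have hwn : ‖w‖ ^ 2 = (ρ ^ 4)⁻¹ := by
      rw [hw, norm_inv, norm_pow, hzn, inv_pow]; ring_nf
    have key : ∀ p q : ℂ, ‖p + q‖ ^ 2 = ‖p‖ ^ 2 + ‖q‖ ^ 2 + 2 * (q * (starRingEnd ℂ) p).re := by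
      intro p q
      rw [← Complex.normSq_eq_norm_sq, ← Complex.normSq_eq_norm_sq, ← Complex.normSq_eq_norm_sq,
        Complex.normSq_add]
      have : (p * (starRingEnd ℂ) q).re = (q * (starRingEnd ℂ) p).re := by
        simp only [Complex.mul_re, Complex.conj_re, Complex.conj_im]; ring
      rw [this]
    have k1 := key (-w + b) (g z)
    have k2 := key b (-w)
    rw [norm_neg, hwn] at k2
    rw [k1, add_comm (-w) b, k2]
    have hre : (h z).re = 2 * (-w * (starRingEnd ℂ) b).re +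
        2 * (g z * (starRingEnd ℂ) (b + -w)).re := by
      have h5 : (-w * (starRingEnd ℂ) b).re = (-(((ρ ^ 4 : ℝ) : ℂ)⁻¹ * z ^ 2) * b).re := by
        rw [← hconj]
        simp only [Complex.mul_re, Complex.conj_re, Complex.conj_im, Complex.neg_re,
          Complex.neg_im]
        ring
      rw [h5, map_add, map_neg, hconj]
      have h6 : h z = 2 * (-(((ρ ^ 4 : ℝ) : ℂ)⁻¹ * z ^ 2) * b) +
          2 * (g z * ((starRingEnd ℂ) b + -(((ρ ^ 4 : ℝ) : ℂ)⁻¹ * z ^ 2))) := by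
        rw [hh]; ring
      rw [h6, Complex.add_re]
      have h7 : ∀ u : ℂ, (2 * u).re = 2 * u.re := fun u => by
        rw [show (2 : ℂ) * u = ((2 : ℝ) : ℂ) * u by push_cast; ring, Complex.re_ofReal_mul]
      rw [h7, h7]
    rw [hre]
    have := sq_nonneg ‖g z‖
    linarith
  have hmono := intervalIntegral.integral_mono (a := -Real.pi) (b := Real.pi) (μ := volume)
    (by linarith) (f := fun θ => ((ρ ^ 4)⁻¹ + ‖b‖ ^ 2) + (h (circleMap 0 ρ θ)).re)
    (g := fun θ => ‖-((circleMap 0 ρ θ) ^ 2)⁻¹ + b + g (circleMap 0 ρ θ)‖ ^ 2) ?_ ?_ hpt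
  · have hadd : ∫ θ in (-Real.pi)..Real.pi, (((ρ ^ 4)⁻¹ + ‖b‖ ^ 2) + (h (circleMap 0 ρ θ)).re) =
        (∫ _θ in (-Real.pi)..Real.pi, ((ρ ^ 4)⁻¹ + ‖b‖ ^ 2)) +
          ∫ θ in (-Real.pi)..Real.pi, (h (circleMap 0 ρ θ)).re :=
      intervalIntegral.integral_add (continuous_const.intervalIntegrable _ _)
        ((Complex.continuous_re.comp hch).intervalIntegrable _ _)
    rw [hadd, hmv, intervalIntegral.integral_const, smul_eq_mul] at hmono
    linarith
  · exact (continuous_const.add (Complex.continuous_re.comp hch)).intervalIntegrable _ _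
  · refine Continuous.intervalIntegrable ?_ _ _
    refine ((Continuous.add (Continuous.add (Continuous.neg ?_) continuous_const) hcg).norm).pow 2
    exact Continuous.inv₀ ((continuous_circleMap 0 ρ).pow 2) (fun θ => pow_ne_zero 2 (hne θ))

/-- The lower bound for the area of the image of an annulus. -/
theorem area_low {g : ℂ → ℂ} {b : ℂ} {r s : ℝ} (hr : 0 < r) (hrs : r ≤ s) (hs : s < 1)
    (hg : DifferentiableOn ℂ g (ball 0 1)) (hg0 : g 0 = 0) :
    Real.pi * ((r ^ 2)⁻¹ - (s ^ 2)⁻¹ + ‖b‖ ^ 2 * (s ^ 2 - r ^ 2)) ≤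
      ∫ z in ann r s, ‖-(z ^ 2)⁻¹ + b + g z‖ ^ 2 := by
  have hpi := Real.pi_pos
  have hcont : ContinuousOn (fun z : ℂ => ‖-(z ^ 2)⁻¹ + b + g z‖ ^ 2) {z | r ≤ ‖z‖ ∧ ‖z‖ ≤ s} := by
    refine ContinuousOn.pow (ContinuousOn.norm (ContinuousOn.add (ContinuousOn.add
      (ContinuousOn.neg ?_) continuousOn_const) ?_)) 2
    · refine ContinuousOn.inv₀ (continuousOn_id.pow 2) ?_
      intro z hz
      have : z ≠ 0 := by
        intro h
        rw [h] at hz
        have := hz.1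
        rw [norm_zero] at this
        linarith
      exact pow_ne_zero 2 this
    · refine hg.continuousOn.mono ?_
      intro z hz
      rw [mem_ball_zero_iff]
      exact lt_of_le_of_lt hz.2 hs
  rw [(integral_ann hr.le hrs hcont).2]
  have hdc : ∀ ρ : ℝ, 0 < ρ → ρ ≤ s → DiffContOnCl ℂ g (ball 0 ρ) := by
    intro ρ h0 h1
    refine DifferentiableOn.diffContOnCl (hg.mono ?_)
    rw [closure_ball _ h0.ne']
    exact closedBall_subset_ball (by linarith)
  have hlow : ∀ ρ ∈ Icc r s, 2 * Real.pi * ((ρ ^ 3)⁻¹ + ‖b‖ ^ 2 * ρ) ≤ ρ * (∫ θ in (-Real.pi)..Real.pi,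
      ‖-((circleMap 0 ρ θ) ^ 2)⁻¹ + b + g (circleMap 0 ρ θ)‖ ^ 2) := by
    intro ρ hρ
    have hρ0 : 0 < ρ := lt_of_lt_of_le hr hρ.1
    have h1 := circle_low (b := b) hρ0 (hdc ρ hρ0 hρ.2) hg0
    have h2 := mul_le_mul_of_nonneg_left h1 hρ0.le
    refine le_trans (le_of_eq ?_) h2
    field_simp
  have hlc : ContinuousOn (fun ρ : ℝ => 2 * Real.pi * ((ρ ^ 3)⁻¹ + ‖b‖ ^ 2 * ρ)) (uIcc r s) := by
    refine continuousOn_const.mul (ContinuousOn.add (ContinuousOn.inv₀ (continuousOn_id.pow 3) ?_)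
      (continuousOn_const.mul continuousOn_id))
    intro ρ hρ
    rw [uIcc_of_le hrs] at hρ
    have : 0 < ρ := lt_of_lt_of_le hr hρ.1
    exact pow_ne_zero 3 this.ne'
  have hmono := intervalIntegral.integral_mono_on hrs hlc.intervalIntegrable
    (integral_ann hr.le hrs hcont).1 hlow
  refine le_trans (le_of_eq ?_) hmono
  have hder : ∀ ρ ∈ uIcc r s, HasDerivAt (fun ρ : ℝ => Real.pi * (-(ρ ^ 2)⁻¹ + ‖b‖ ^ 2 * ρ ^ 2))
      (2 * Real.pi * ((ρ ^ 3)⁻¹ + ‖b‖ ^ 2 * ρ)) ρ := by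
    intro ρ hρ
    rw [uIcc_of_le hrs] at hρ
    have h0 : ρ ≠ 0 := (lt_of_lt_of_le hr hρ.1).ne'
    have h1 : HasDerivAt (fun ρ : ℝ => (ρ ^ 2)⁻¹) (-(2 * ρ) / (ρ ^ 2) ^ 2) ρ := by
      have h2 := (hasDerivAt_pow 2 ρ).fun_inv (pow_ne_zero 2 h0)
      refine h2.congr_deriv ?_
      simp
    have h2 : HasDerivAt (fun ρ : ℝ => ‖b‖ ^ 2 * ρ ^ 2) (‖b‖ ^ 2 * (2 * ρ)) ρ := by
      have h3 := (hasDerivAt_pow 2 ρ).const_mul (‖b‖ ^ 2)
      simpa using h3
    have h3 := ((h1.neg).add h2).const_mul Real.pi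
    refine h3.congr_deriv ?_
    field_simp
  rw [intervalIntegral.integral_eq_sub_of_hasDerivAt hder hlc.intervalIntegrable]
  ring

end Pool.Agent.Lib.MP_ae5b4e_an_UT
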